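import Pool.Agent.N754.MT.Main
import Pool.Agent.N754.LG.Stm
import Pool.Agent.N754.FV.Stm

/-!
Statements for project GF: places and derivations of function fields, Wronskians with common zeros,
polynomials with small coefficients.
-/

set_option autoImplicit false

open MvPolynomial FF Pool.Agent.W603.LV Filter

namespace Pool.Agent.N754.GF

open Pool.Agent.W602.GT (Divisorial DerReg DerLog LogGeneralType)
open Pool.Agent.N754.LG (Dual)
open Pool.Agent.N754.LT (Dc)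
open Pool.Agent.N754.MT (Dm Mv SS Szd)
open Pool.Agent.N754.LT (mon)

/-- the inequality for Wronskians of functions with common zeros -/
def WR2 : Prop := ∀ (k K : Type) [Field k] [Field K] [Algebra k K] [CharZero k] [IsAlgClosed k]
  [IsFF k K] (S Z : Finset (Place k K)) (N : ℕ) (κ : Type) (B : κ → Fin N → K),
  Disjoint S Z → (∀ c a, ∀ P ∉ S, Ge P 0 (B c a)) → (∀ c a, ∀ P ∈ Z, Ge P 1 (B c a)) →
  (∀ c, LinearIndependent k (B c)) →
  (∀ c c', Submodule.span k (Set.range (B c)) = Submodule.span k (Set.range (B c'))) →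
  ∀ s : Place k K → κ, ∑ P ∈ S, ∑ a, P.ord (B (s P) a) + N * Z.card ≤ tri N * euler S

/-- an ideal of elements with a common divisor of size `g` -/
structure Gd {k0 R0 : Type} [Field k0] [CommRing R0] [Algebra k0 R0] (D : Dc k0 R0) where
  I : Ideal R0
  g : D.Ω → ℝ
  nonneg : ∀ᶠ ω in D.ev, 0 ≤ g ω
  smt : ∀ (N : ℕ) (κ : Type) [Finite κ] (B : κ → Fin N → R0), (∀ c a, B c a ∈ I) →
    (∀ c, LinearIndependent k0 (B c)) →
    (∀ c c', Submodule.span k0 (Set.range (B c)) = Submodule.span k0 (Set.range (B c'))) →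
    ∀ s : D.Ω → κ, D.Neg (fun ω => N * g ω - ∑ a, Real.log (D.A (B (s ω) a) ω))

/-- from constant coefficients to moving coefficients -/
def S_MVG : Prop := ∀ (k0 R0 : Type) [Field k0] [CommRing R0] [IsDomain R0] [Algebra k0 R0]
  (D : Dc k0 R0) (G : Gd D) (k R : Type) [Field k] [CommRing R] [IsDomain R] [Algebra k R]
  (μ : Mv D k R), Szd D → ∀ (N : ℕ) (κ : Type) [Finite κ] (B : κ → Fin N → R),
  (∀ c a, ∃ x ∈ G.I, ∃ d ∈ SS D, d ≠ 0 ∧ B c a * μ.j d = μ.j x) →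
  (∀ c, LinearIndependent k (B c)) →
  (∀ c c', Submodule.span k (Set.range (B c)) = Submodule.span k (Set.range (B c'))) →
  ∀ s : D.Ω → κ, D.Neg (fun ω => N * G.g ω - ∑ a, Real.log (μ.AA (B (s ω) a) ω))

/-- coprime polynomials in units have no large common divisor -/
def S_GCD : Prop := ∀ (k R : Type) [Field k] [CommRing R] [IsDomain R] [Algebra k R] (D : Dm k R)
  (I : Ideal R) (g : D.Ω → ℝ),
  (∀ (N : ℕ) (κ : Type) [Finite κ] (B : κ → Fin N → R), (∀ c a, B c a ∈ I) →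
    (∀ c, LinearIndependent k (B c)) →
    (∀ c c', Submodule.span k (Set.range (B c)) = Submodule.span k (Set.range (B c'))) →
    ∀ s : D.Ω → κ, D.Neg (fun ω => N * g ω - ∑ a, Real.log (D.A (B (s ω) a) ω))) →
  ∀ (r : ℕ) (w : Fin r → Rˣ), 1 ≤ r → AlgebraicIndependent k (fun i => (w i : R)) →
  ∀ p q : MvPolynomial (Fin r) k, q ≠ 0 → IsRelPrime q p →
  aeval (fun i => (w i : R)) p ∈ I → aeval (fun i => (w i : R)) q ∈ I → D.Neg g

/-- polynomials in units are not much smaller than their monomials -/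
def S_MAX : Prop := ∀ (k R : Type) [Field k] [CommRing R] [IsDomain R] [Algebra k R] (D : Dm k R)
  (r : ℕ) (w : Fin r → Rˣ), AlgebraicIndependent k (fun i => (w i : R)) →
  ∀ q : MvPolynomial (Fin r) k, q ≠ 0 → ∀ s : D.Ω → (Fin r →₀ ℕ), (∀ ω, s ω ∈ q.support) →
  D.Neg (fun ω => D.lg ((mon w (fun i => s ω i) : Rˣ) : R) ω -
    D.lg (aeval (fun i => (w i : R)) q) ω)

/-- a polynomial and its derivative are coprime -/
def S_ALG : Prop := ∀ (κ L : Type) [Field κ] [Field L] [Algebra κ L] [CharZero κ] (r : ℕ)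
  (w : Fin r → L) (δ : Derivation ℤ L L), (∀ c : κ, ∃ c' : κ, δ (algebraMap κ L c) =
    algebraMap κ L c') → (∀ i, ∃ c : κ, δ (w i) = algebraMap κ L c * w i) →
  (∀ x : L, δ x = 0 → ∃ c : κ, x = algebraMap κ L c) → AlgebraicIndependent κ w →
  ∀ p : MvPolynomial (Fin r) κ, p ≠ 0 → (∀ i, ¬ X i ∣ p) → (∃ j, IsRelPrime p (pderiv j p)) →
  ∃ q : MvPolynomial (Fin r) κ, aeval w q = δ (aeval w p) ∧ IsRelPrime p q

/-- coprimality is preserved if some of the variables are replaced by algebraically independent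
elements -/
def S_EXT : Prop := ∀ (k κ : Type) [Field k] [Field κ] [Algebra k κ] (a r : ℕ) (s : Fin a → κ),
  AlgebraicIndependent k s → ∀ F G : MvPolynomial (Fin a ⊕ Fin r) k, F ≠ 0 → G ≠ 0 →
  IsRelPrime F G →
  IsRelPrime (aeval (Sum.elim (fun i => C (s i)) X : Fin a ⊕ Fin r → MvPolynomial (Fin r) κ) F)
    (aeval (Sum.elim (fun i => C (s i)) X : Fin a ⊕ Fin r → MvPolynomial (Fin r) κ) G)

/-- derivations have bounded poles along a divisorial place -/
def S_DBD : Prop := ∀ (k K : Type) [Field k] [Field K] [Algebra k K] [CharZero k] (T : Finset K),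
  IntermediateField.adjoin k (T : Set K) = ⊤ → ∀ w : ℕ, Algebra.trdeg k K = w →
  ∀ P : Place k K, Divisorial w P → ∀ D : Derivation k K K,
  ∃ n : ℕ, ∀ f : K, P.Reg f → Ge P (-(n : ℤ)) (D f)

/-- the dual derivations are regular at unramified places -/
def S_REGD : Prop := ∀ (k K : Type) [Field k] [Field K] [Algebra k K] [CharZero k] (T : Finset K),
  IntermediateField.adjoin k (T : Set K) = ⊤ → ∀ w : ℕ, Algebra.trdeg k K = w →
  ∀ (b : Fin w → K) (D : Fin w → Derivation k K K), AlgebraicIndependent k b → Dual b D →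
  ∀ P : Place k K, (∀ j, P.ord (b j) = 0) → (∃ F : MvPolynomial (Fin w) k, Irreducible F ∧
    P.ord (aeval b F) = 1 ∧ ∀ G : MvPolynomial (Fin w) k, IsRelPrime F G →
      P.ord (aeval b G) = 0) →
  Divisorial w P ∧ ∀ j, DerReg P (D j)

/-- the place restricts to a toric valuation of the field of rational functions in `b` -/
def Toric {k K : Type} [Field k] [Field K] [Algebra k K] {w : ℕ} (b : Fin w → K)
    (P : Place k K) : Prop :=
  (∃ i, P.ord (b i) ≠ 0) ∧ ∀ q : MvPolynomial (Fin w) k, q ≠ 0 → ∃ m ∈ q.support,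
    P.ord (aeval b q) = ∑ i, (m i : ℤ) * P.ord (b i) ∧
    ∀ m' ∈ q.support, ∑ i, (m i : ℤ) * P.ord (b i) ≤ ∑ i, (m' i : ℤ) * P.ord (b i)

/-- the dual derivations are logarithmic at toric places -/
def S_LOGD : Prop := ∀ (k K : Type) [Field k] [Field K] [Algebra k K] [CharZero k] (T : Finset K),
  IntermediateField.adjoin k (T : Set K) = ⊤ → ∀ w : ℕ, Algebra.trdeg k K = w →
  ∀ (b : Fin w → K) (D : Fin w → Derivation k K K), AlgebraicIndependent k b → Dual b D →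
  ∀ P : Place k K, Toric b P → Divisorial w P ∧ ∀ j, DerLog P (D j)

/-- the equation of a function which is regular at the toric places -/
def S_TOR : Prop := ∀ (k K : Type) [Field k] [Field K] [Algebra k K] [CharZero k] (T : Finset K),
  IntermediateField.adjoin k (T : Set K) = ⊤ → ∀ w : ℕ, Algebra.trdeg k K = w →
  ∀ b : Fin w → K, AlgebraicIndependent k b → ∀ g : K, (∀ P : Place k K, Toric b P → P.Reg g) →
  ∃ (d : ℕ) (q : MvPolynomial (Fin w) k) (p : Fin d → MvPolynomial (Fin w) k), q ≠ 0 ∧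
    aeval b q * g ^ d + ∑ i, aeval b (p i) * g ^ (i : ℕ) = 0 ∧
    ∀ (a : Fin w → ℤ) (i : Fin d), ∀ m ∈ (p i).support, ∃ m' ∈ q.support,
      ∑ j, (m' j : ℤ) * a j ≤ ∑ j, (m j : ℤ) * a j

/-- the place given by a family of valuations along an ultrafilter -/
def S_PLC : Prop := ∀ (k K : Type) [Field k] [Field K] [Algebra k K] (w : ℕ),
  Algebra.trdeg k K = w → ∀ b : Fin w → K, AlgebraicIndependent k b →
  ∀ (β : Type) (𝒱 : Ultrafilter β) (v : β → K → ℤ),
  (∀ f g, f ≠ 0 → g ≠ 0 → ∀ᶠ x in (𝒱 : Filter β), v x (f * g) = v x f + v x g) →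
  (∀ f g, f ≠ 0 → g ≠ 0 → f + g ≠ 0 → ∀ᶠ x in (𝒱 : Filter β), min (v x f) (v x g) ≤ v x (f + g)) →
  (∀ c : k, c ≠ 0 → ∀ᶠ x in (𝒱 : Filter β), v x (algebraMap k K c) = 0) →
  ∀ F : MvPolynomial (Fin w) k, Irreducible F →
  (∀ᶠ x in (𝒱 : Filter β), v x (aeval b F) = 1) →
  (∀ G, IsRelPrime F G → ∀ᶠ x in (𝒱 : Filter β), v x (aeval b G) = 0) →
  ∃ P : Place k K, ∀ f, f ≠ 0 → ∀ᶠ x in (𝒱 : Filter β), v x f = P.ord f

/-- an ultrafilter which avoids small sets -/
def S_UF : Prop := ∀ (α : Type) (𝒰 : Ultrafilter α) (N : α → ℝ) (β : α → Type)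
  (B : ∀ t, Finset (β t)), (∀ᶠ t in (𝒰 : Filter α), 0 ≤ N t) →
  ¬ (∀ ε : ℝ, 0 < ε → ∀ᶠ t in (𝒰 : Filter α), ((B t).card : ℝ) ≤ ε * N t) →
  ∃ 𝒱 : Ultrafilter (Σ t, β t), (∀ᶠ x in (𝒱 : Filter (Σ t, β t)), x.2 ∈ B x.1) ∧
    (∀ T ∈ 𝒰, ∀ᶠ x in (𝒱 : Filter (Σ t, β t)), x.1 ∈ T) ∧
    ∀ Z : ∀ t, Finset (β t), (∀ ε : ℝ, 0 < ε → ∀ᶠ t in (𝒰 : Filter α),
      ((Z t).card : ℝ) ≤ ε * N t) → ∀ᶠ x in (𝒱 : Filter (Σ t, β t)), x.2 ∉ Z x.1

end Pool.Agent.N754.GF
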