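import Mathlib
import Pool.Agent.N754.GF.Stm
import Pool.Agent.N754.FV.Dct

/-!
Slow functions, sequences of units, and the statements about polynomials in units with slow
coefficients.
-/

set_option autoImplicit false
set_option linter.unusedSectionVars false
set_option linter.overlappingInstances false

open MvPolynomial FF Pool.Agent.W603.LV Filter

namespace Pool.Agent.N754.GF

open Pool.Agent.N754.FV
open Pool.Agent.W602.GT (Divisorial DerReg DerLog LogGeneralType)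
open Pool.Agent.N754.LG (Dual)

/-- a derivation which is logarithmic and dual to a unit -/
def S_DER : Prop := ∀ (k K : Type) [Field k] [Field K] [Algebra k K] [CharZero k] [IsAlgClosed k]
  [IsFF k K] (S : Finset (Place k K)) (w : K), w ≠ 0 → (∀ P ∉ S, P.ord w = 0) →
  (∀ c : k, w ≠ algebraMap k K c) →
  ∃ (δ : Derivation k K K) (Z : Finset (Place k K)), δ w = w ∧ (Z.card : ℤ) ≤ euler S ∧
    (∀ x, δ x = 0 → ∃ c : k, x = algebraMap k K c) ∧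
    (∀ P ∉ S, P ∉ Z → ∀ f, Ge P 2 f → Ge P 1 (δ f)) ∧
    (∀ f, hgt k (δ f) ≤ 2 * hgt k f + euler S) ∧
    ∀ u, u ≠ 0 → (∀ P ∉ S, P.ord u = 0) → hgt k (δ u / u) ≤ euler S + S.card

section height

variable {k K : Type} [Field k] [Field K] [Algebra k K] [CharZero k] [IsFF k K]

omit [CharZero k] [IsFF k K] in
theorem hgt_constant (c : k) : hgt k (algebraMap k K c) = 0 := by
  by_cases hc : c = 0
  · rw [hc, map_zero, hgt_finset (k := k) (0 : K) ∅ (fun P h => absurd P.ord_zero h)]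
    rfl
  · rw [hgt_finset (k := k) (algebraMap k K c) ∅ (fun P h => absurd (P.ord_const hc) h)]
    rfl

theorem hgt_add_le (f g : K) : hgt k (f + g) ≤ hgt k f + hgt k g := by
  classical
  obtain ⟨T, hT⟩ := exists_supp (k := k) (Finset.univ : Finset (Fin 3)) ![f, g, f + g]
  have h1 : ∀ P : Place k K, P.ord f ≠ 0 → P ∈ T := fun P => hT 0 (Finset.mem_univ _) P
  have h2 : ∀ P : Place k K, P.ord g ≠ 0 → P ∈ T := fun P => hT 1 (Finset.mem_univ _) P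
  have h3 : ∀ P : Place k K, P.ord (f + g) ≠ 0 → P ∈ T := fun P => hT 2 (Finset.mem_univ _) P
  rw [hgt_finset _ T h1, hgt_finset _ T h2, hgt_finset _ T h3, ← Finset.sum_add_distrib]
  refine Finset.sum_le_sum fun P _ => ?_
  by_cases hf : f = 0
  · rw [hf, zero_add, P.ord_zero]
    omega
  by_cases hg : g = 0
  · rw [hg, add_zero, P.ord_zero]
    omega
  by_cases h : f + g = 0
  · rw [h, P.ord_zero]
    omega
  have h4 := P.ord_add hf hg h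
  omega

theorem hgt_mul_le (f g : K) : hgt k (f * g) ≤ hgt k f + hgt k g := by
  by_cases hf : f = 0
  · rw [hf, zero_mul]
    have h1 := hgt_nonneg (k := k) g
    linarith
  by_cases hg : g = 0
  · rw [hg, mul_zero]
    have h1 := hgt_nonneg (k := k) f
    linarith
  exact hgt_mul hf hg

end height

variable {k Ω α : Type} [Field k] [Field Ω] [Algebra k Ω] (D : Sy k Ω α) (𝒰 : Ultrafilter α)

/-- functions which are small compared with the scale -/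
def Slow (f : α → ℝ) : Prop := ∀ ε : ℝ, 0 < ε → ∀ᶠ t in (𝒰 : Filter α), f t ≤ ε * D.N t

/-- sequences of functions of small height -/
def SlowE (x : ∀ t, D.K t) : Prop := Slow D 𝒰 fun t => ((hgt k (x t) : ℤ) : ℝ)

/-- families of finite sets of places with small cardinality -/
def SlowS (Z : ∀ t, Finset (Place k (D.K t))) : Prop := Slow D 𝒰 fun t => ((Z t).card : ℝ)

variable {D 𝒰}

theorem Slow.mono {f g : α → ℝ} (hf : Slow D 𝒰 f) (h : ∀ᶠ t in (𝒰 : Filter α), g t ≤ f t) :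
    Slow D 𝒰 g := by
  intro ε hε
  filter_upwards [hf ε hε, h] with t h1 h2
  exact h2.trans h1

theorem Slow.add {f g : α → ℝ} (hf : Slow D 𝒰 f) (hg : Slow D 𝒰 g) :
    Slow D 𝒰 fun t => f t + g t := by
  intro ε hε
  filter_upwards [hf (ε / 2) (by positivity), hg (ε / 2) (by positivity)] with t h1 h2
  linarith

theorem Slow.zero (hN : ∀ᶠ t in (𝒰 : Filter α), 0 ≤ D.N t) : Slow D 𝒰 fun _ => 0 := by
  intro ε hε
  filter_upwards [hN] with t h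
  positivity

theorem Slow.smul {f : α → ℝ} (hf : Slow D 𝒰 f) (c : ℝ) (hc : 0 ≤ c)
    (hN : ∀ᶠ t in (𝒰 : Filter α), 0 ≤ D.N t) : Slow D 𝒰 fun t => c * f t := by
  intro ε hε
  filter_upwards [hf (ε / (c + 1)) (by positivity), hN] with t h1 h2
  calc c * f t ≤ c * (ε / (c + 1) * D.N t) := mul_le_mul_of_nonneg_left h1 hc
    _ = ε * D.N t * (c / (c + 1)) := by ring
    _ ≤ ε * D.N t * 1 := by
        refine mul_le_mul_of_nonneg_left ?_ (by positivity)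
        rw [div_le_one (by positivity)]
        linarith
    _ = _ := mul_one _

theorem Slow.sum {ι : Type} (s : Finset ι) (f : ι → α → ℝ) (hf : ∀ i ∈ s, Slow D 𝒰 (f i))
    (hN : ∀ᶠ t in (𝒰 : Filter α), 0 ≤ D.N t) : Slow D 𝒰 fun t => ∑ i ∈ s, f i t := by
  classical
  induction s using Finset.induction_on with
  | empty => simpa using Slow.zero hN
  | insert i s hi ih =>
    simp only [Finset.sum_insert hi]
    exact (hf i (Finset.mem_insert_self _ _)).add (ih fun j hj => hf j (Finset.mem_insert_of_mem hj))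

section closed

variable [CharZero k] [IsAlgClosed k]

theorem SlowE.add {x y : ∀ t, D.K t} (hx : SlowE D 𝒰 x) (hy : SlowE D 𝒰 y) :
    SlowE D 𝒰 fun t => x t + y t := by
  refine Slow.mono (Slow.add hx hy) (Eventually.of_forall fun t => ?_)
  exact_mod_cast hgt_add_le (k := k) (x t) (y t)

theorem SlowE.mul {x y : ∀ t, D.K t} (hx : SlowE D 𝒰 x) (hy : SlowE D 𝒰 y) :
    SlowE D 𝒰 fun t => x t * y t := by
  refine Slow.mono (Slow.add hx hy) (Eventually.of_forall fun t => ?_)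
  exact_mod_cast hgt_mul_le (k := k) (x t) (y t)

theorem SlowE.inv {x : ∀ t, D.K t} (hx : SlowE D 𝒰 x) : SlowE D 𝒰 fun t => (x t)⁻¹ := by
  refine Slow.mono hx (Eventually.of_forall fun t => ?_)
  rw [hgt_inv]

theorem SlowE.const (hN : ∀ᶠ t in (𝒰 : Filter α), 0 ≤ D.N t) (c : α → k) :
    SlowE D 𝒰 fun t => algebraMap k (D.K t) (c t) := by
  refine Slow.mono (Slow.zero hN) (Eventually.of_forall fun t => ?_)
  show ((hgt k (algebraMap k (D.K t) (c t)) : ℤ) : ℝ) ≤ 0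
  rw [hgt_constant]
  simp

theorem SlowE.congr {x y : ∀ t, D.K t} (hx : SlowE D 𝒰 x)
    (h : ∀ᶠ t in (𝒰 : Filter α), x t = y t) : SlowE D 𝒰 y := by
  refine Slow.mono hx ?_
  filter_upwards [h] with t ht
  rw [ht]

theorem SlowE.neg (hN : ∀ᶠ t in (𝒰 : Filter α), 0 ≤ D.N t) {x : ∀ t, D.K t}
    (hx : SlowE D 𝒰 x) : SlowE D 𝒰 fun t => -x t := by
  refine (SlowE.mul (SlowE.const hN fun _ => (-1 : k)) hx).congr (Eventually.of_forall fun t => ?_)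
  show algebraMap k (D.K t) (-1) * x t = -x t
  rw [map_neg, map_one, neg_one_mul]

theorem Ok.nn (hok : Ok D 𝒰) : ∀ᶠ t in (𝒰 : Filter α), 0 ≤ D.N t := hok.top 0

/-- the field of germs of slow sequences -/
def κS (hok : Ok D 𝒰) : Subfield (GC Ω α 𝒰) where
  carrier := {b | ∃ x : ∀ t, D.K t, b = gs D 𝒰 x ∧ SlowE D 𝒰 x}
  mul_mem' := by
    rintro _ _ ⟨x, rfl, hx⟩ ⟨y, rfl, hy⟩
    exact ⟨_, (gs_mul D 𝒰 x y).symm, hx.mul hy⟩
  one_mem' := by
    refine ⟨fun _ => 1, (gs_one D 𝒰).symm, ?_⟩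
    have := SlowE.const (D := D) (𝒰 := 𝒰) (Ok.nn hok) fun _ => (1 : k)
    simpa using this
  add_mem' := by
    rintro _ _ ⟨x, rfl, hx⟩ ⟨y, rfl, hy⟩
    exact ⟨_, (gs_add D 𝒰 x y).symm, hx.add hy⟩
  zero_mem' := by
    refine ⟨fun _ => 0, (gs_zero D 𝒰).symm, ?_⟩
    have := SlowE.const (D := D) (𝒰 := 𝒰) (Ok.nn hok) fun _ => (0 : k)
    simpa using this
  neg_mem' := by
    rintro _ ⟨x, rfl, hx⟩
    exact ⟨_, (gs_neg D 𝒰 x).symm, hx.neg (Ok.nn hok)⟩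
  inv_mem' := by
    rintro _ ⟨x, rfl, hx⟩
    refine ⟨fun t => (x t)⁻¹, ?_, hx.inv⟩
    have h1 : (gs D 𝒰 x)⁻¹ = gc 𝒰 fun t => (D.σ t (x t))⁻¹ := rfl
    rw [h1]
    unfold gs
    congr 1
    funext t
    rw [map_inv₀]

theorem mem_κS (hok : Ok D 𝒰) (b : GC Ω α 𝒰) :
    b ∈ κS hok ↔ ∃ x : ∀ t, D.K t, b = gs D 𝒰 x ∧ SlowE D 𝒰 x := Iff.rfl

theorem gs_mem_κS (hok : Ok D 𝒰) (x : ∀ t, D.K t) : gs D 𝒰 x ∈ κS hok ↔ SlowE D 𝒰 x := by
  rw [mem_κS]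
  constructor
  · rintro ⟨y, h, hy⟩
    rw [gs_eq] at h
    exact hy.congr (h.mono fun t ht => ht.symm)
  · intro h
    exact ⟨x, rfl, h⟩

variable (D 𝒰) in
/-- the field of germs of sequences of functions -/
def LS : Subfield (GC Ω α 𝒰) where
  carrier := {b | ∃ x : ∀ t, D.K t, b = gs D 𝒰 x}
  mul_mem' := by
    rintro _ _ ⟨x, rfl⟩ ⟨y, rfl⟩
    exact ⟨_, (gs_mul D 𝒰 x y).symm⟩
  one_mem' := ⟨fun _ => 1, (gs_one D 𝒰).symm⟩
  add_mem' := by
    rintro _ _ ⟨x, rfl⟩ ⟨y, rfl⟩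
    exact ⟨_, (gs_add D 𝒰 x y).symm⟩
  zero_mem' := ⟨fun _ => 0, (gs_zero D 𝒰).symm⟩
  neg_mem' := by
    rintro _ ⟨x, rfl⟩
    exact ⟨_, (gs_neg D 𝒰 x).symm⟩
  inv_mem' := by
    rintro _ ⟨x, rfl⟩
    refine ⟨fun t => (x t)⁻¹, ?_⟩
    have h1 : (gs D 𝒰 x)⁻¹ = gc 𝒰 fun t => (D.σ t (x t))⁻¹ := rfl
    rw [h1]
    unfold gs
    congr 1
    funext t
    rw [map_inv₀]

end closed

/-- units of height `O(N)`, multiplicatively independent modulo slow functions -/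
structure Un (D : Sy k Ω α) (𝒰 : Ultrafilter α) {r : ℕ} (w : Fin r → ∀ t, D.K t) : Prop where
  unit : ∀ i, ∀ᶠ t in (𝒰 : Filter α), w i t ≠ 0 ∧ ∀ P ∉ D.S t, P.ord (w i t) = 0
  bdd : ∃ C : ℝ, 0 ≤ C ∧ ∀ i, ∀ᶠ t in (𝒰 : Filter α), ((hgt k (w i t) : ℤ) : ℝ) ≤ C * D.N t
  ind : ∀ e : Fin r → ℤ, SlowE D 𝒰 (fun t => ∏ i, w i t ^ e i) → e = 0

section stm

variable [CharZero k] [IsAlgClosed k]

/-- the units are algebraically independent over the field of slow germs -/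
def IND (hok : Ok D 𝒰) : Prop := ∀ (r : ℕ) (w : Fin r → ∀ t, D.K t), Un D 𝒰 w →
  AlgebraicIndependent (κS hok) fun i => gs D 𝒰 (w i)

/-- polynomials are as large as their monomials -/
def MAXS (hok : Ok D 𝒰) : Prop := ∀ (r : ℕ) (w : Fin r → ∀ t, D.K t), Un D 𝒰 w →
  ∀ p : MvPolynomial (Fin r) (κS hok), p ≠ 0 → ∀ f : ∀ t, D.K t,
  gs D 𝒰 f = aeval (fun i => gs D 𝒰 (w i)) p →
  ∀ S' : ∀ t, Finset (Place k (D.K t)), SlowS D 𝒰 S' →
  ∀ m : ∀ t, Place k (D.K t) → (Fin r →₀ ℕ), (∀ t P, m t P ∈ p.support) →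
  Slow D 𝒰 fun t => ∑ P ∈ S' t,
    ((P.ord (f t) : ℝ) - ∑ i, (m t P i : ℝ) * (P.ord (w i t) : ℝ))

/-- coprime polynomials have few common zeros -/
def GCDS (hok : Ok D 𝒰) : Prop := ∀ (r : ℕ) (w : Fin r → ∀ t, D.K t), Un D 𝒰 w →
  ∀ p q : MvPolynomial (Fin r) (κS hok), p ≠ 0 → IsRelPrime p q → ∀ f g : ∀ t, D.K t,
  gs D 𝒰 f = aeval (fun i => gs D 𝒰 (w i)) p → gs D 𝒰 g = aeval (fun i => gs D 𝒰 (w i)) q →
  ∃ Z : ∀ t, Finset (Place k (D.K t)), SlowS D 𝒰 Z ∧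
    ∀ᶠ t in (𝒰 : Filter α), ∀ P ∉ Z t, ¬ (Ge P 1 (f t) ∧ Ge P 1 (g t))

end stm

/-- the input for the comparison with the function field of the variety: the elements with index in
`A` are slow, the others are units -/
structure Inp (D : Sy k Ω α) (𝒰 : Ultrafilter α) {ι : Type} [Fintype ι] (A : ι → Prop)
    (b : ι → ∀ t, D.K t) : Prop where
  slow : ∀ i, A i → SlowE D 𝒰 (b i)
  unit : ∀ i, ¬ A i → ∀ᶠ t in (𝒰 : Filter α), b i t ≠ 0 ∧ ∀ P ∉ D.S t, P.ord (b i t) = 0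
  ne : ∀ F : MvPolynomial ι k, F ≠ 0 → ∀ᶠ t in (𝒰 : Filter α), aeval (fun i => b i t) F ≠ 0
  max : ∀ F : MvPolynomial ι k, F ≠ 0 → ∀ S' : ∀ t, Finset (Place k (D.K t)), SlowS D 𝒰 S' →
    ∀ m : ∀ t, Place k (D.K t) → (ι →₀ ℕ), (∀ t P, m t P ∈ F.support) →
    Slow D 𝒰 fun t => ∑ P ∈ S' t, ((P.ord (aeval (fun i => b i t) F) : ℝ) -
      ∑ i, (m t P i : ℝ) * (P.ord (b i t) : ℝ))
  gcd : ∀ F G : MvPolynomial ι k, F ≠ 0 → IsRelPrime F G →
    ∃ Z : ∀ t, Finset (Place k (D.K t)), SlowS D 𝒰 Z ∧ ∀ᶠ t in (𝒰 : Filter α), ∀ P ∉ Z t,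
      ¬ (Ge P 1 (aeval (fun i => b i t) F) ∧ Ge P 1 (aeval (fun i => b i t) G))
  trunc : ∀ F : MvPolynomial ι k, Irreducible F → (∃ j, ¬ A j ∧ 0 < F.degreeOf j) →
    (∀ j, ¬ A j → ¬ Associated F (X j)) →
    ∃ Z : ∀ t, Finset (Place k (D.K t)), SlowS D 𝒰 Z ∧ ∀ᶠ t in (𝒰 : Filter α), ∀ P ∉ Z t,
      ¬ Ge P 2 (aeval (fun i => b i t) F)

/-- the index set of the input can be changed -/
def EQV : Prop := ∀ (k Ω α : Type) [Field k] [Field Ω] [Algebra k Ω] (D : Sy k Ω α)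
  (𝒰 : Ultrafilter α) (ι ι' : Type) [Fintype ι] [Fintype ι'] (e : ι ≃ ι') (A : ι → Prop)
  (b : ι → ∀ t, D.K t), Inp D 𝒰 A b →
  Inp D 𝒰 (fun i : ι' => A (e.symm i)) (fun (i : ι') t => b (e.symm i) t)

/-- from the statements about units to the input -/
def S_INP : Prop := ∀ (k Ω α : Type) [Field k] [Field Ω] [Algebra k Ω] [CharZero k]
  [IsAlgClosed k] (D : Sy k Ω α) (𝒰 : Ultrafilter α) (hok : Ok D 𝒰), IND hok → MAXS hok →
  GCDS hok → ∀ (a r : ℕ) (s : Fin a → ∀ t, D.K t) (w : Fin r → ∀ t, D.K t),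
  (∀ i, SlowE D 𝒰 (s i)) →
  (∀ F : MvPolynomial (Fin a) k, F ≠ 0 → ∀ᶠ t in (𝒰 : Filter α), aeval (fun i => s i t) F ≠ 0) →
  Un D 𝒰 w →
  Inp D 𝒰 (fun i : Fin a ⊕ Fin r => ∃ j, i = Sum.inl j)
    (Sum.elim s w : Fin a ⊕ Fin r → ∀ t, D.K t)

/-- evaluation of the functions in `K` along the sequence -/
structure Evl (D : Sy k Ω α) (𝒰 : Ultrafilter α) (K : Type) [Field K] [Algebra k K] where
  ev : K → ∀ t, D.K t
  add : ∀ f g, ∀ᶠ t in (𝒰 : Filter α), ev (f + g) t = ev f t + ev g t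
  mul : ∀ f g, ∀ᶠ t in (𝒰 : Filter α), ev (f * g) t = ev f t * ev g t
  const : ∀ c : k, ∀ᶠ t in (𝒰 : Filter α), ev (algebraMap k K c) t = algebraMap k (D.K t) c
  ne : ∀ f, f ≠ 0 → ∀ᶠ t in (𝒰 : Filter α), ev f t ≠ 0

/-- functions which are regular at the places which are unramified over the torus have few poles -/
def S_2A : Prop := ∀ (k Ω α : Type) [Field k] [Field Ω] [Algebra k Ω] [CharZero k]
  [IsAlgClosed k] (D : Sy k Ω α) (𝒰 : Ultrafilter α) (K : Type) [Field K] [Algebra k K] (E : Evl D 𝒰 K) (w : ℕ)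
  (A : Fin w → Prop) (b : Fin w → K) (n : ℕ) (y : Fin n → K) (g : K),
  (∀ᶠ t in (𝒰 : Filter α), 0 ≤ D.N t) → SlowS D 𝒰 D.S → Algebra.trdeg k K = w →
  AlgebraicIndependent k b → Inp D 𝒰 A (fun i => E.ev (b i)) →
  (∀ i, ∀ᶠ t in (𝒰 : Filter α), ∀ P ∉ D.S t, 0 ≤ P.ord (E.ev (y i) t)) →
  (∀ P : Place k K, (∀ i, P.ord (b i) = 0) → (∀ i, 0 ≤ P.ord (y i)) →
    (∃ F : MvPolynomial (Fin w) k, Irreducible F ∧ P.ord (aeval b F) = 1 ∧
      ∀ G : MvPolynomial (Fin w) k, IsRelPrime F G → P.ord (aeval b G) = 0) → 0 ≤ P.ord g) →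
  ∃ B : ∀ t, Finset (Place k (D.K t)), SlowS D 𝒰 B ∧
    ∀ᶠ t in (𝒰 : Filter α), ∀ P ∉ D.S t, P.ord (E.ev g t) < 0 → P ∈ B t

/-- functions with few poles which are regular at the toric places are slow -/
def S_2B : Prop := ∀ (k Ω α : Type) [Field k] [Field Ω] [Algebra k Ω] [CharZero k]
  [IsAlgClosed k] (D : Sy k Ω α) (𝒰 : Ultrafilter α) (K : Type) [Field K] [Algebra k K] (E : Evl D 𝒰 K)
  (T : Finset K) (w : ℕ) (A : Fin w → Prop) (b : Fin w → K) (g : K),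
  (∀ᶠ t in (𝒰 : Filter α), 0 ≤ D.N t) → SlowS D 𝒰 D.S →
  IntermediateField.adjoin k (T : Set K) = ⊤ → Algebra.trdeg k K = w →
  AlgebraicIndependent k b → Inp D 𝒰 A (fun i => E.ev (b i)) →
  (∃ B : ∀ t, Finset (Place k (D.K t)), SlowS D 𝒰 B ∧
    ∀ᶠ t in (𝒰 : Filter α), ∀ P ∉ D.S t, P.ord (E.ev g t) < 0 → P ∈ B t) →
  (∀ P : Place k K, Toric b P → P.Reg g) → SlowE D 𝒰 (E.ev g)

end Pool.Agent.N754.GF
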