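import Mathlib
import Pool.Agent.N754.GF.Sq

/-!
Polynomials over the field of slow germs.
-/

set_option autoImplicit false
set_option linter.unusedSectionVars false
set_option linter.overlappingInstances false

open MvPolynomial FF Pool.Agent.W603.LV Filter

namespace Pool.Agent.N754.GF

open Pool.Agent.N754.FV

variable {k Ω α : Type} [Field k] [Field Ω] [Algebra k Ω] [CharZero k] [IsAlgClosed k]
  {D : Sy k Ω α} {𝒰 : Ultrafilter α} (hok : Ok D 𝒰)

/-- the germ of a constant -/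
noncomputable def cG : k →+* κS hok where
  toFun c := ⟨gs D 𝒰 fun t => algebraMap k (D.K t) c,
    (gs_mem_κS hok _).2 (SlowE.const (Ok.nn hok) fun _ => c)⟩
  map_one' := Subtype.ext (by
    show gs D 𝒰 (fun t => algebraMap k (D.K t) 1) = 1
    simp only [map_one]
    exact gs_one D 𝒰)
  map_mul' a b := Subtype.ext (by
    show gs D 𝒰 (fun t => algebraMap k (D.K t) (a * b)) =
      gs D 𝒰 (fun t => algebraMap k (D.K t) a) * gs D 𝒰 (fun t => algebraMap k (D.K t) b)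
    simp only [map_mul]
    exact gs_mul D 𝒰 _ _)
  map_zero' := Subtype.ext (by
    show gs D 𝒰 (fun t => algebraMap k (D.K t) 0) = 0
    simp only [map_zero]
    exact gs_zero D 𝒰)
  map_add' a b := Subtype.ext (by
    show gs D 𝒰 (fun t => algebraMap k (D.K t) (a + b)) =
      gs D 𝒰 (fun t => algebraMap k (D.K t) a) + gs D 𝒰 (fun t => algebraMap k (D.K t) b)
    simp only [map_add]
    exact gs_add D 𝒰 _ _)

theorem cG_val (c : k) : ((cG hok c : κS hok) : GC Ω α 𝒰) =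
    gs D 𝒰 fun t => algebraMap k (D.K t) c := rfl

noncomputable instance algG : Algebra k (κS hok) := (cG hok).toAlgebra

theorem algG_val (c : k) : ((algebraMap k (κS hok) c : κS hok) : GC Ω α 𝒰) =
    gs D 𝒰 fun t => algebraMap k (D.K t) c := rfl

/-- values in the field of germs -/
theorem gs_eval {ι : Type} (b : ι → ∀ t, D.K t) (F : MvPolynomial ι k) :
    gs D 𝒰 (fun t => aeval (fun i => b i t) F) =
      eval₂ ((κS hok).subtype.comp (algebraMap k (κS hok))) (fun i => gs D 𝒰 (b i)) F := by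
  induction F using MvPolynomial.induction_on with
  | C a =>
    rw [eval₂_C]
    simp only [aeval_C]
    rfl
  | add p q hp hq =>
    rw [eval₂_add, ← hp, ← hq, ← gs_add]
    simp only [map_add]
  | mul_X p j hp =>
    rw [eval₂_mul, eval₂_X, ← hp, ← gs_mul]
    simp only [map_mul, aeval_X]

/-- slow germs -/
noncomputable def sG {a : ℕ} (s : Fin a → ∀ t, D.K t) (hs : ∀ i, SlowE D 𝒰 (s i)) (i : Fin a) : κS hok :=
  ⟨gs D 𝒰 (s i), (gs_mem_κS hok _).2 (hs i)⟩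

theorem sG_ind {a : ℕ} (s : Fin a → ∀ t, D.K t) (hs : ∀ i, SlowE D 𝒰 (s i))
    (h : ∀ F : MvPolynomial (Fin a) k, F ≠ 0 → ∀ᶠ t in (𝒰 : Filter α),
      aeval (fun i => s i t) F ≠ 0) :
    AlgebraicIndependent k (sG hok s hs) := by
  show Function.Injective (aeval (R := k) (sG hok s hs))
  rw [injective_iff_map_eq_zero]
  intro F hF
  by_contra hF0
  have h1 : ((aeval (sG hok s hs) F : κS hok) : GC Ω α 𝒰) =
      gs D 𝒰 (fun t => aeval (fun i => s i t) F) := by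
    rw [gs_eval hok]
    have h2 : ((aeval (sG hok s hs) F : κS hok) : GC Ω α 𝒰) =
        (κS hok).subtype (eval₂ (algebraMap k (κS hok)) (sG hok s hs) F) := rfl
    rw [h2, hom_eval₂]
    rfl
  rw [hF] at h1
  have h2 : gs D 𝒰 (fun t => aeval (fun i => s i t) F) = gs D 𝒰 (fun _ => 0) := by
    rw [← h1, gs_zero]
    rfl
  rw [gs_eq] at h2
  obtain ⟨t, h3, h4⟩ := ((h F hF0).and h2).exists
  exact h3 h4

/-- the polynomial over the field of slow germs -/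
noncomputable def tl {a r : ℕ} (s : Fin a → ∀ t, D.K t) (hs : ∀ i, SlowE D 𝒰 (s i))
    (F : MvPolynomial (Fin a ⊕ Fin r) k) : MvPolynomial (Fin r) (κS hok) :=
  aeval (Sum.elim (fun i => C (sG hok s hs i)) X : Fin a ⊕ Fin r → MvPolynomial (Fin r) (κS hok)) F

theorem tl_val {a r : ℕ} (s : Fin a → ∀ t, D.K t) (hs : ∀ i, SlowE D 𝒰 (s i))
    (w : Fin r → ∀ t, D.K t) (F : MvPolynomial (Fin a ⊕ Fin r) k) :
    gs D 𝒰 (fun t => aeval (fun i => (Sum.elim s w : Fin a ⊕ Fin r → ∀ t, D.K t) i t) F) =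
      aeval (fun i => gs D 𝒰 (w i)) (tl hok s hs F) := by
  rw [gs_eval hok]
  unfold tl
  induction F using MvPolynomial.induction_on with
  | C a =>
    rw [eval₂_C, aeval_C, MvPolynomial.algebraMap_apply, aeval_C]
    rfl
  | add p q hp hq => rw [eval₂_add, hp, hq, map_add, map_add]
  | mul_X p j hp =>
    rw [eval₂_mul, eval₂_X, hp, map_mul, map_mul, aeval_X]
    congr 1
    rcases j with j | j
    · rw [Sum.elim_inl, Sum.elim_inl, aeval_C]
      rfl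
    · rw [Sum.elim_inr, Sum.elim_inr, aeval_X]

section inputs

/-- the first part of the input, from the statements about units -/
def INP1 : Prop := ∀ (k Ω α : Type) [Field k] [Field Ω] [Algebra k Ω] [CharZero k]
  [IsAlgClosed k] (D : Sy k Ω α) (𝒰 : Ultrafilter α) (hok : Ok D 𝒰), IND hok → MAXS hok →
  ∀ (a r : ℕ) (s : Fin a → ∀ t, D.K t) (w : Fin r → ∀ t, D.K t),
  (∀ i, SlowE D 𝒰 (s i)) →
  (∀ F : MvPolynomial (Fin a) k, F ≠ 0 → ∀ᶠ t in (𝒰 : Filter α), aeval (fun i => s i t) F ≠ 0) →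
  Un D 𝒰 w →
  (∀ F : MvPolynomial (Fin a ⊕ Fin r) k, F ≠ 0 → ∀ᶠ t in (𝒰 : Filter α),
    aeval (fun i => (Sum.elim s w : Fin a ⊕ Fin r → ∀ t, D.K t) i t) F ≠ 0) ∧
  ∀ F : MvPolynomial (Fin a ⊕ Fin r) k, F ≠ 0 → ∀ S' : ∀ t, Finset (Place k (D.K t)),
    SlowS D 𝒰 S' → ∀ m : ∀ t, Place k (D.K t) → (Fin a ⊕ Fin r →₀ ℕ),
    (∀ t P, m t P ∈ F.support) → Slow D 𝒰 fun t => ∑ P ∈ S' t,
      ((P.ord (aeval (fun i => (Sum.elim s w : Fin a ⊕ Fin r → ∀ t, D.K t) i t) F) : ℝ) -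
      ∑ i, (m t P i : ℝ) * (P.ord ((Sum.elim s w : Fin a ⊕ Fin r → ∀ t, D.K t) i t) : ℝ))

/-- the second part of the input, from the statements about units -/
def INP2 : Prop := ∀ (k Ω α : Type) [Field k] [Field Ω] [Algebra k Ω] [CharZero k]
  [IsAlgClosed k] (D : Sy k Ω α) (𝒰 : Ultrafilter α) (hok : Ok D 𝒰), IND hok →
  GCDS hok → ∀ (a r : ℕ) (s : Fin a → ∀ t, D.K t) (w : Fin r → ∀ t, D.K t),
  (∀ i, SlowE D 𝒰 (s i)) →
  (∀ F : MvPolynomial (Fin a) k, F ≠ 0 → ∀ᶠ t in (𝒰 : Filter α), aeval (fun i => s i t) F ≠ 0) →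
  Un D 𝒰 w →
  (∀ F G : MvPolynomial (Fin a ⊕ Fin r) k, F ≠ 0 → IsRelPrime F G →
    ∃ Z : ∀ t, Finset (Place k (D.K t)), SlowS D 𝒰 Z ∧ ∀ᶠ t in (𝒰 : Filter α), ∀ P ∉ Z t,
      ¬ (Ge P 1 (aeval (fun i => (Sum.elim s w : Fin a ⊕ Fin r → ∀ t, D.K t) i t) F) ∧
        Ge P 1 (aeval (fun i => (Sum.elim s w : Fin a ⊕ Fin r → ∀ t, D.K t) i t) G))) ∧
  ∀ F : MvPolynomial (Fin a ⊕ Fin r) k, Irreducible F → (∃ j : Fin r, 0 < F.degreeOf (Sum.inr j)) →
    (∀ j : Fin r, ¬ Associated F (X (Sum.inr j))) →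
    ∃ Z : ∀ t, Finset (Place k (D.K t)), SlowS D 𝒰 Z ∧ ∀ᶠ t in (𝒰 : Filter α), ∀ P ∉ Z t,
      ¬ Ge P 2 (aeval (fun i => (Sum.elim s w : Fin a ⊕ Fin r → ∀ t, D.K t) i t) F)

end inputs

end Pool.Agent.N754.GF
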