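import Mathlib
import Pool.Agent.N754.GF.Tl
import Pool.Agent.N754.MT.Low

/-!
Polynomials in units, whose coefficients are quotients of slow integral functions.
-/

set_option autoImplicit false
set_option linter.unusedSectionVars false
set_option linter.overlappingInstances false

open MvPolynomial FF Pool.Agent.W603.LV Filter

namespace Pool.Agent.N754.GF

open Pool.Agent.N754.FV
open Pool.Agent.N754.LT (Dc mon mon_val)
open Pool.Agent.N754.MT (Dm Mv SS mem_SS Szd KF RF kE rE kE_inj rE_inj mvF lg_j units_li mkK kE_mkK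
  jR rE_jR rEa)

/-- units which are independent modulo small elements are algebraically independent -/
theorem algInd_of {k R : Type} [Field k] [CommRing R] [IsDomain R] [Algebra k R] (D : Dm k R)
    {r : ℕ} (w : Fin r → Rˣ)
    (h : ∀ e : Fin r → ℤ, (∃ c : k, ((∏ i, w i ^ e i : Rˣ) : R) = algebraMap k R c) → e = 0) :
    AlgebraicIndependent k (fun i => (w i : R)) := by
  classical
  show Function.Injective (aeval (R := k) fun i => (w i : R))
  rw [injective_iff_map_eq_zero]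
  intro p hp
  let e : Fin p.support.card ≃ p.support := p.support.equivFin.symm
  have h1 : ∑ j, algebraMap k R (coeff (e j).1 p) * ((mon w (fun i => (e j).1 i) : Rˣ) : R) = 0 := by
    have h2 : aeval (fun i => (w i : R)) p =
        ∑ a : p.support, algebraMap k R (coeff a.1 p) * ((mon w (fun i => a.1 i) : Rˣ) : R) := by
      conv_lhs => rw [p.as_sum]
      rw [map_sum, ← Finset.sum_coe_sort]
      refine Finset.sum_congr rfl fun a _ => ?_
      rw [aeval_monomial, mon_val, Finsupp.prod_fintype _ _ (fun i => pow_zero _)]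
    rw [← hp, h2]
    exact Equiv.sum_comp e (fun a : p.support =>
      algebraMap k R (coeff a.1 p) * ((mon w (fun i => a.1 i) : Rˣ) : R))
  have h2 := units_li D _ (fun j => mon w (fun i => (e j).1 i)) (fun i j hij c hc => by
    have h3 := h (fun l => ((e i).1 l : ℤ) - ((e j).1 l : ℤ)) ⟨c, by
      have h4 : (∏ l, w l ^ (((e i).1 l : ℤ) - ((e j).1 l : ℤ)) : Rˣ) =
          mon w (fun l => (e i).1 l) * (mon w (fun l => (e j).1 l))⁻¹ := by
        unfold mon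
        rw [← Finset.prod_inv_distrib, ← Finset.prod_mul_distrib]
        refine Finset.prod_congr rfl fun l _ => ?_
        rw [zpow_sub, zpow_natCast, zpow_natCast]
      rw [h4, Units.val_mul, hc, mul_assoc, Units.mul_inv, mul_one]⟩
    apply hij
    apply e.injective
    apply Subtype.ext
    ext l
    have h5 := congrFun h3 l
    simp only [Pi.zero_apply] at h5
    omega) (fun j => coeff (e j).1 p) h1
  ext m
  rw [coeff_zero]
  by_cases hm : m ∈ p.support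
  · have h3 := congrFun h2 (e.symm ⟨m, hm⟩)
    simpa using h3
  · simpa using hm

section sup

variable {k K : Type} [Field k] [Field K] [Algebra k K] [CharZero k] [IsFF k K] [IsAlgClosed k]

/-- the zeros and poles -/
noncomputable def zp (f : K) : Finset (Place k K) := (finite_support (k := k) f).toFinset

theorem mem_zp (f : K) (P : Place k K) : P ∈ zp f ↔ P.ord f ≠ 0 := by
  unfold zp
  simp

theorem sum_abs_le (f : K) (S : Finset (Place k K)) : ∑ P ∈ S, |P.ord f| ≤ 2 * hgt k f := by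
  classical
  have h1 : ∀ P : Place k K, P.ord f ≠ 0 → P ∈ S ∪ zp f := fun P hP =>
    Finset.mem_union_right _ ((mem_zp f P).2 hP)
  have h2 : ∀ P : Place k K, P.ord f⁻¹ ≠ 0 → P ∈ S ∪ zp f := fun P hP => h1 P (by
    rw [P.ord_inv] at hP
    omega)
  have h3 : 2 * hgt k f = hgt k f + hgt k f⁻¹ := by
    rw [hgt_inv]
    ring
  rw [h3, hgt_finset _ _ h1, hgt_finset _ _ h2, ← Finset.sum_add_distrib]
  refine (Finset.sum_le_sum_of_subset_of_nonneg (Finset.subset_union_left (s₂ := zp f))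
    fun _ _ _ => abs_nonneg _).trans (Finset.sum_le_sum fun P _ => ?_)
  rw [P.ord_inv]
  rcases le_total 0 (P.ord f) with h | h
  · rw [abs_of_nonneg h]
    omega
  · rw [abs_of_nonpos h]
    omega

theorem card_zp_le (f : K) : ((zp (k := k) f).card : ℤ) ≤ 2 * hgt k f := by
  refine le_trans ?_ (sum_abs_le f (zp f))
  rw [Finset.card_eq_sum_ones]
  push_cast
  refine Finset.sum_le_sum fun P hP => ?_
  exact Int.one_le_abs ((mem_zp f P).1 hP)

end sup

variable {k Ω α : Type} [Field k] [Field Ω] [Algebra k Ω] [CharZero k] [IsAlgClosed k]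
  {E : Sy k Ω α} {𝒰 : Ultrafilter α}

/-- units bounded by the scale -/
structure UnE (E : Sy k Ω α) (𝒰 : Ultrafilter α) {r : ℕ} (w : Fin r → ∀ t, E.K t) : Prop where
  unit : ∀ i, ∀ᶠ t in (𝒰 : Filter α), w i t ≠ 0 ∧ ∀ P ∉ E.S t, P.ord (w i t) = 0
  bdd : ∀ i, ∀ᶠ t in (𝒰 : Filter α), ∀ P ∈ E.S t, |(P.ord (w i t) : ℝ)| ≤ E.o t P
  ind : ∀ e : Fin r → ℤ, SlowE E 𝒰 (fun t => ∏ i, w i t ^ e i) → e = 0

section units

variable {r : ℕ} {w : Fin r → ∀ t, E.K t} (hw : UnE E 𝒰 w)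

include hw

theorem w_int (i : Fin r) : Int' E 𝒰 (w i) := by
  filter_upwards [hw.unit i] with t ht P hP
  exact Or.inr (ht.2 P hP).ge

theorem wi_int (i : Fin r) : Int' E 𝒰 (fun t => (w i t)⁻¹) := by
  filter_upwards [hw.unit i] with t ht P hP
  refine Or.inr ?_
  rw [P.ord_inv, ht.2 P hP]
  simp

theorem w_bdd (i : Fin r) : Bdd E 𝒰 (w i) := by
  refine ⟨1, zero_le_one, ?_⟩
  filter_upwards [hw.bdd i] with t ht P hP
  rw [one_mul]
  exact (neg_le_abs _).trans (ht P hP)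

theorem wi_bdd (i : Fin r) : Bdd E 𝒰 (fun t => (w i t)⁻¹) := by
  refine ⟨1, zero_le_one, ?_⟩
  filter_upwards [hw.bdd i] with t ht P hP
  rw [one_mul, P.ord_inv]
  push_cast
  rw [neg_neg]
  exact (le_abs_self _).trans (ht P hP)

/-- the unit of the ring of germs -/
noncomputable def wU (i : Fin r) : (R0 E 𝒰)ˣ where
  val := mkr (w i) (w_int hw i) (w_bdd hw i)
  inv := mkr (fun t => (w i t)⁻¹) (wi_int hw i) (wi_bdd hw i)
  val_inv := by
    apply rV_inj E 𝒰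
    rw [map_mul, rV_mkr, rV_mkr, ← gs_mul, map_one, ← gs_one E 𝒰, gs_eq]
    filter_upwards [hw.unit i] with t ht
    exact mul_inv_cancel₀ ht.1
  inv_val := by
    apply rV_inj E 𝒰
    rw [map_mul, rV_mkr, rV_mkr, ← gs_mul, map_one, ← gs_one E 𝒰, gs_eq]
    filter_upwards [hw.unit i] with t ht
    exact inv_mul_cancel₀ ht.1

end units

theorem max_log_AV (x : R0 E 𝒰) (t : α) (P : {P // P ∈ E.S t}) :
    max (Real.log (AV x (⟨t, P⟩ : Om E))) 0 = max (-((P.1.ord (rp x t) : ℤ) : ℝ)) 0 := by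
  by_cases h0 : rp x t = 0
  · rw [AV_zero (ω := (⟨t, P⟩ : Om E)) h0, Real.log_zero, h0, P.1.ord_zero]
    simp
  · rw [log_AV (ω := (⟨t, P⟩ : Om E)) h0]

theorem sum_max (x : R0 E 𝒰) : ∀ᶠ t in (𝒰 : Filter α),
    ∑ P : {P // P ∈ E.S t}, max (Real.log (AV x (⟨t, P⟩ : Om E))) 0 =
      ((hgt k (rp x t) : ℤ) : ℝ) := by
  filter_upwards [rp_int x] with t ht
  have h1 : hgt k (rp x t) = ∑ P ∈ E.S t, max (-P.ord (rp x t)) 0 := by
    unfold hgt
    rw [finsum_eq_sum_of_support_subset (s := E.S t)]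
    intro P hP
    by_contra hPS
    apply hP
    show max (-P.ord (rp x t)) 0 = 0
    rcases ht P hPS with h | h
    · rw [h, P.ord_zero]
      rfl
    · exact max_eq_right (by omega)
  rw [h1]
  push_cast
  rw [← Finset.sum_coe_sort (E.S t)]
  exact Finset.sum_congr rfl fun P _ => max_log_AV x t P

variable (hWR : WR) (hE : Ok E 𝒰)

theorem mem_SS_iff (x : R0 E 𝒰) : x ∈ SS (DcS hWR hE) ↔ SlowE E 𝒰 (rp x) := by
  rw [mem_SS]
  constructor
  · intro h ε hε
    filter_upwards [h ε hε, sum_max x] with t h1 h2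
    rw [← h2]
    exact h1
  · intro h ε hε
    filter_upwards [h ε hε, sum_max x] with t h1 h2
    rw [← h2] at h1
    exact h1

/-- the field of quotients of slow integral elements -/
abbrev kk : Type := KF (DcS hWR hE) (rV E 𝒰) (rV_inj E 𝒰)

/-- the ring of quotients with slow denominators -/
abbrev rr : Type := RF (DcS hWR hE) (rV E 𝒰)

/-- the realisation -/
noncomputable abbrev mm : Mv (DcS hWR hE) (kk hWR hE) (rr hWR hE) :=
  mvF (DcS hWR hE) (rV E 𝒰) (rV_inj E 𝒰)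

/-- the absolute values -/
noncomputable abbrev dd : Dm (kk hWR hE) (rr hWR hE) := (mm hWR hE).dm (szdS hWR hE)

/-- values -/
noncomputable abbrev vk : kk hWR hE →+* GC Ω α 𝒰 := kE (DcS hWR hE) (rV E 𝒰) (rV_inj E 𝒰)

/-- values -/
noncomputable abbrev vr : rr hWR hE →+* GC Ω α 𝒰 := rE (DcS hWR hE) (rV E 𝒰)

theorem vr_alg (c : kk hWR hE) : vr hWR hE (algebraMap _ _ c) = vk hWR hE c := rfl

theorem vk_mem (c : kk hWR hE) : vk hWR hE c ∈ κS hE := by
  obtain ⟨x, hx, d, hd, hd0, h⟩ := c.2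
  have h1 : rV E 𝒰 x ∈ κS hE := by
    rw [rp_eq, gs_mem_κS]
    exact (mem_SS_iff hWR hE x).1 hx
  have h2 : rV E 𝒰 d ∈ κS hE := by
    rw [rp_eq, gs_mem_κS]
    exact (mem_SS_iff hWR hE d).1 hd
  have h3 : rV E 𝒰 d ≠ 0 := (map_ne_zero_iff _ (rV_inj E 𝒰)).2 hd0
  have h4 : vk hWR hE c = rV E 𝒰 x / rV E 𝒰 d := by
    rw [eq_div_iff h3]
    exact h
  rw [h4]
  exact (κS hE).div_mem h1 h2

theorem exists_kk (x : ∀ t, E.K t) (h1 : Int' E 𝒰 x) (h2 : Bdd E 𝒰 x) (h3 : SlowE E 𝒰 x) :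
    ∃ c : kk hWR hE, vk hWR hE c = gs E 𝒰 x := by
  have h4 : mkr x h1 h2 ∈ SS (DcS hWR hE) := by
    rw [mem_SS_iff]
    exact h3.congr ((rp_mkr x h1 h2).mono fun t ht => ht.symm)
  exact ⟨mkK (DcS hWR hE) (rV E 𝒰) (rV_inj E 𝒰) _ h4, rfl⟩

/-- a numerator and a denominator -/
theorem exists_nd (b : rr hWR hE) (f : ∀ t, E.K t) (hf : vr hWR hE b = gs E 𝒰 f) :
    ∃ x d : R0 E 𝒰, d ∈ SS (DcS hWR hE) ∧ d ≠ 0 ∧
      b * (mm hWR hE).j d = (mm hWR hE).j x ∧
      ∀ᶠ t in (𝒰 : Filter α), rp x t = f t * rp d t ∧ rp d t ≠ 0 := by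
  obtain ⟨x, d, hd, hd0, h⟩ := b.2
  refine ⟨x, d, hd, hd0, rE_inj _ _ h, ?_⟩
  have h1 : gs E 𝒰 (fun t => f t * rp d t) = gs E 𝒰 (rp x) := by
    rw [gs_mul, ← rp_eq, ← rp_eq, ← hf]
    exact h
  rw [gs_eq] at h1
  filter_upwards [h1, rp_ne_zero d hd0] with t g1 g2
  exact ⟨g1.symm, g2⟩

theorem lg_eq (b : rr hWR hE) (hb : b ≠ 0) (f : ∀ t, E.K t) (hf : vr hWR hE b = gs E 𝒰 f) :
    ∀ᶠ t in (𝒰 : Filter α), f t ≠ 0 ∧ ∀ P : {P // P ∈ E.S t},
      (dd hWR hE).lg b (⟨t, P⟩ : Om E) = -(P.1.ord (f t) : ℝ) := by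
  obtain ⟨x, d, hd, hd0, h, hfx⟩ := exists_nd hWR hE b f hf
  have hx0 := (mm hWR hE).ne_zero_of b hb x d hd0 h
  have h1 := (mm hWR hE).lg_eq b hb x d hd0 h
  have h2 : ∀ᶠ t in (𝒰 : Filter α), ∀ P : {P // P ∈ E.S t},
      Real.log ((mm hWR hE).AA b (⟨t, P⟩ : Om E)) =
      (DcS hWR hE).lg x (⟨t, P⟩ : Om E) - (DcS hWR hE).lg d (⟨t, P⟩ : Om E) :=
    (ev_iff E 𝒰 _).1 h1
  filter_upwards [h2, hfx, rp_ne_zero x hx0] with t g1 g2 g3
  have hf0 : f t ≠ 0 := fun h0 => g3 (by rw [g2.1, h0, zero_mul])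
  refine ⟨hf0, fun P => ?_⟩
  show Real.log ((mm hWR hE).AA b (⟨t, P⟩ : Om E)) = _
  rw [g1 P]
  show Real.log (AV x (⟨t, P⟩ : Om E)) - Real.log (AV d (⟨t, P⟩ : Om E)) = _
  rw [log_AV (ω := (⟨t, P⟩ : Om E)) g3, log_AV (ω := (⟨t, P⟩ : Om E)) g2.2]
  show -((P.1.ord (rp x t) : ℤ) : ℝ) - -((P.1.ord (rp d t) : ℤ) : ℝ) = _
  rw [g2.1, P.1.ord_mul hf0 g2.2]
  push_cast
  ring

section pol

variable {r : ℕ} {w : Fin r → ∀ t, E.K t} (hw : UnE E 𝒰 w)

/-- the units of the ring -/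
noncomputable def wr' (i : Fin r) : (rr hWR hE)ˣ :=
  Units.map (jR (DcS hWR hE) (rV E 𝒰) : R0 E 𝒰 →* rr hWR hE) (wU hw i)

theorem vr_wr (i : Fin r) : vr hWR hE (wr' hWR hE hw i : rr hWR hE) = gs E 𝒰 (w i) := rfl

theorem gs_zpow (x : ∀ t, E.K t) (n : ℤ) : gs E 𝒰 (fun t => x t ^ n) = gs E 𝒰 x ^ n := by
  obtain ⟨m, rfl | rfl⟩ := n.eq_nat_or_neg
  · simp only [zpow_natCast]
    unfold gs
    rw [← map_pow]
    congr 1
    funext t
    exact map_pow _ _ _
  · simp only [zpow_neg, zpow_natCast]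
    have h1 : (gs E 𝒰 x ^ m)⁻¹ = (gc 𝒰 fun t => E.σ t (x t) ^ m)⁻¹ := by
      unfold gs
      rw [← map_pow]
      rfl
    have h2 : (gc 𝒰 fun t => E.σ t (x t) ^ m)⁻¹ = gc 𝒰 fun t => (E.σ t (x t) ^ m)⁻¹ := rfl
    rw [h1, h2]
    unfold gs
    congr 1
    funext t
    rw [map_inv₀, map_pow]

theorem gs_prod {ι : Type} (s : Finset ι) (x : ι → ∀ t, E.K t) :
    gs E 𝒰 (fun t => ∏ i ∈ s, x i t) = ∏ i ∈ s, gs E 𝒰 (x i) := by
  classical
  induction s using Finset.induction_on with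
  | empty => simpa using gs_one E 𝒰
  | insert i s hi ih =>
    simp only [Finset.prod_insert hi]
    rw [gs_mul, ih]

theorem vr_mon (e : Fin r → ℤ) :
    vr hWR hE ((∏ i, wr' hWR hE hw i ^ e i : (rr hWR hE)ˣ) : rr hWR hE) =
      gs E 𝒰 (fun t => ∏ i, w i t ^ e i) := by
  rw [gs_prod, Units.coe_prod, map_prod]
  refine Finset.prod_congr rfl fun i _ => ?_
  rw [gs_zpow, ← vr_wr hWR hE hw i]
  have h1 := congrArg Units.val
    (map_zpow (Units.map (vr hWR hE : rr hWR hE →* GC Ω α 𝒰)) (wr' hWR hE hw i) (e i))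
  rw [Units.val_zpow_eq_zpow_val] at h1
  exact h1

theorem vr_mon' (m : Fin r → ℕ) :
    vr hWR hE ((mon (wr' hWR hE hw) m : (rr hWR hE)ˣ) : rr hWR hE) =
      gs E 𝒰 (fun t => ∏ i, w i t ^ m i) := by
  have h1 := vr_mon hWR hE hw (fun i => (m i : ℤ))
  simp only [zpow_natCast] at h1
  exact h1

theorem indE : AlgebraicIndependent (kk hWR hE) (fun i => (wr' hWR hE hw i : rr hWR hE)) := by
  refine algInd_of (dd hWR hE) _ fun e he => ?_
  obtain ⟨c, hc⟩ := he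
  apply hw.ind
  rw [← gs_mem_κS hE, ← vr_mon hWR hE hw e, hc, vr_alg]
  exact vk_mem hWR hE c

/-- values of polynomials -/
theorem vr_aeval (p : MvPolynomial (Fin r) (kk hWR hE)) :
    vr hWR hE (aeval (fun i => (wr' hWR hE hw i : rr hWR hE)) p) =
      eval₂ (vk hWR hE) (fun i => gs E 𝒰 (w i)) p := by
  rw [aeval_def, hom_eval₂]
  rfl

end pol

end Pool.Agent.N754.GF
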