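import Mathlib
import Pool.Agent.N754.GF.El

/-!
The size of polynomials in units, and common zeros of coprime polynomials.
-/

set_option autoImplicit false
set_option linter.unusedSectionVars false
set_option linter.overlappingInstances false

open MvPolynomial FF Pool.Agent.W603.LV Filter

namespace Pool.Agent.N754.GF

open Pool.Agent.N754.FV
open Pool.Agent.N754.LT (Dc mon mon_val)
open Pool.Agent.N754.MT (Dm Mv SS mem_SS Szd KF RF kE rE kE_inj rE_inj mvF lg_j units_li mkK kE_mkK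
  jR rE_jR rEa)

variable {k Ω α : Type} [Field k] [Field Ω] [Algebra k Ω] [CharZero k] [IsAlgClosed k]
  {E : Sy k Ω α} {𝒰 : Ultrafilter α} (hWR : WR) (hE : Ok E 𝒰) {r : ℕ} {w : Fin r → ∀ t, E.K t}
  (hw : UnE E 𝒰 w)

theorem ord_prod_pow {K : Type} [Field K] [Algebra k K] (P : Place k K) {ι : Type} (s : Finset ι)
    (x : ι → K) (hx : ∀ i ∈ s, x i ≠ 0) (m : ι → ℕ) :
    P.ord (∏ i ∈ s, x i ^ m i) = ∑ i ∈ s, (m i : ℤ) * P.ord (x i) := by
  classical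
  induction s using Finset.induction_on with
  | empty => simpa using P.ord_one
  | insert i s hi ih =>
    rw [Finset.prod_insert hi, Finset.sum_insert hi, P.ord_mul
      (pow_ne_zero _ (hx i (Finset.mem_insert_self _ _)))
      (Finset.prod_ne_zero_iff.2 fun j hj => pow_ne_zero _ (hx j (Finset.mem_insert_of_mem hj))),
      P.ord_pow, ih fun j hj => hx j (Finset.mem_insert_of_mem hj)]

include hw in
/-- **The size of polynomials in units.** -/
theorem maxE (hM : S_MAX) (p : MvPolynomial (Fin r) (kk hWR hE)) (hp : p ≠ 0)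
    (f : ∀ t, E.K t) (hf : gs E 𝒰 f = eval₂ (vk hWR hE) (fun i => gs E 𝒰 (w i)) p)
    (m : ∀ t, Place k (E.K t) → (Fin r →₀ ℕ)) (hm : ∀ t P, m t P ∈ p.support) :
    Slow E 𝒰 fun t => ∑ P ∈ E.S t,
      ((P.ord (f t) : ℝ) - ∑ i, (m t P i : ℝ) * (P.ord (w i t) : ℝ)) := by
  classical
  have hind := indE hWR hE hw
  have h1 := hM (kk hWR hE) (rr hWR hE) (dd hWR hE) r (wr' hWR hE hw) hind p hp
    (fun ω => m ω.1 ω.2.1) (fun ω => hm _ _)
  have hq0 : aeval (fun i => (wr' hWR hE hw i : rr hWR hE)) p ≠ 0 := by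
    intro h0
    exact hp (hind (by rw [h0, map_zero]))
  have hq := lg_eq hWR hE (aeval (fun i => (wr' hWR hE hw i : rr hWR hE)) p) hq0 f (by
    rw [vr_aeval, hf])
  have hmon : ∀ᶠ t in (𝒰 : Filter α), ∀ a ∈ p.support, ∀ P : {P // P ∈ E.S t},
      (dd hWR hE).lg ((mon (wr' hWR hE hw) (fun i => a i) : (rr hWR hE)ˣ) : rr hWR hE)
        (⟨t, P⟩ : Om E) = -((P.1.ord (∏ i, w i t ^ a i) : ℤ) : ℝ) := by
    refine (Filter.eventually_all_finset _).2 fun a _ => ?_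
    exact (lg_eq hWR hE _ (Units.ne_zero _) _ (vr_mon' hWR hE hw fun i => a i)).mono
      fun t ht => ht.2
  have hw0 : ∀ᶠ t in (𝒰 : Filter α), ∀ i, w i t ≠ 0 :=
    eventually_all.2 fun i => (hw.unit i).mono fun t ht => ht.1
  intro ε hε
  filter_upwards [h1 ε hε, hq, hmon, hw0] with t g1 g2 g3 g4
  refine le_trans (le_of_eq ?_) g1
  rw [← Finset.sum_coe_sort (E.S t)]
  refine Finset.sum_congr rfl fun P _ => ?_
  have e1 := g2.2 P
  have e2 := g3 (m t P.1) (hm t P.1) P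
  rw [ord_prod_pow P.1 _ _ (fun i _ => g4 i)] at e2
  show _ = (dd hWR hE).lg ((mon (wr' hWR hE hw) (fun i => m t P.1 i) : (rr hWR hE)ˣ) : rr hWR hE)
    (⟨t, P⟩ : Om E) - (dd hWR hE).lg (aeval (fun i => (wr' hWR hE hw i : rr hWR hE)) p)
    (⟨t, P⟩ : Om E)
  rw [e1, e2]
  push_cast
  ring

/-- the ideal of the germs which vanish on given sets -/
def vI (E : Sy k Ω α) (𝒰 : Ultrafilter α) (Z : ∀ t, Finset (Place k (E.K t))) :
    Ideal (R0 E 𝒰) where
  carrier := {b | ∀ᶠ t in (𝒰 : Filter α), ∀ P ∈ Z t, P ∉ E.S t → Ge P 1 (rp b t)}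
  add_mem' := by
    intro a b ha hb
    filter_upwards [ha, hb, rp_add a b] with t h1 h2 h3 P hP hPS
    rw [h3]
    exact (h1 P hP hPS).add (h2 P hP hPS)
  zero_mem' := by
    filter_upwards [rp_zero (D := E) (𝒰 := 𝒰)] with t h P _ _
    rw [h]
    exact Ge.zero
  smul_mem' := by
    intro c b hb
    filter_upwards [hb, rp_mul c b, rp_int c] with t h1 h2 h3 P hP hPS
    rw [smul_eq_mul, h2]
    have := (h3 P hPS).mul (h1 P hP hPS)
    rwa [zero_add] at this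

theorem mem_vI (Z : ∀ t, Finset (Place k (E.K t))) (b : R0 E 𝒰) :
    b ∈ vI E 𝒰 Z ↔ ∀ᶠ t in (𝒰 : Filter α), ∀ P ∈ Z t, P ∉ E.S t → Ge P 1 (rp b t) := Iff.rfl

/-- the size of the common divisor -/
noncomputable def gZ (Z : ∀ t, Finset (Place k (E.K t))) (ω : Om E) : ℝ :=
  ((Z ω.1).card : ℝ) / ((E.S ω.1).card : ℝ)

theorem sum_gZ (Z : ∀ t, Finset (Place k (E.K t))) (t : α) (h : (E.S t).Nonempty) :
    ∑ P : {P // P ∈ E.S t}, gZ Z (⟨t, P⟩ : Om E) = ((Z t).card : ℝ) := by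
  have h0 : ∀ P : {P // P ∈ E.S t}, gZ Z (⟨t, P⟩ : Om E) =
      ((Z t).card : ℝ) / ((E.S t).card : ℝ) := fun P => rfl
  rw [Finset.sum_congr rfl fun P _ => h0 P, Finset.sum_const, Finset.card_univ, Fintype.card_coe,
    nsmul_eq_mul]
  have h1 : ((E.S t).card : ℝ) ≠ 0 := by
    exact_mod_cast (Finset.card_pos.2 h).ne'
  field_simp

include hE in
theorem gd_smt (hW : WR2) (Z : ∀ t, Finset (Place k (E.K t)))
    (hZ : ∀ t, Disjoint (E.S t) (Z t)) (N : ℕ) (κ : Type) [Finite κ]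
    (B : κ → Fin N → R0 E 𝒰) (hB : ∀ c a, B c a ∈ vI E 𝒰 Z)
    (hli : ∀ c, LinearIndependent (K0 k Ω 𝒰) (B c))
    (hsp : ∀ c c', Submodule.span (K0 k Ω 𝒰) (Set.range (B c)) =
      Submodule.span (K0 k Ω 𝒰) (Set.range (B c'))) (s : Om E → κ) :
    NegS E 𝒰 (fun ω => N * gZ Z ω - ∑ a, Real.log (AV (B (s ω) a) ω)) := by
  classical
  intro ε hε
  have h1 : ∀ᶠ t in (𝒰 : Filter α), ∀ c, LinearIndependent k (fun a => rp (B c a) t) :=
    (eventually_all).2 fun c => li_rp _ (hli c)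
  have h2 : ∀ᶠ t in (𝒰 : Filter α), ∀ c c', Submodule.span k (Set.range fun a => rp (B c a) t) =
      Submodule.span k (Set.range fun a => rp (B c' a) t) := by
    refine (eventually_all).2 fun c => (eventually_all).2 fun c' => ?_
    filter_upwards [span_rp (B c) (B c') (hsp c c').le, span_rp (B c') (B c) (hsp c c').ge]
      with t g1 g2
    exact le_antisymm g1 g2
  have h3 : ∀ᶠ t in (𝒰 : Filter α), ∀ c a, ∀ P ∉ E.S t, Ge P 0 (rp (B c a) t) :=
    (eventually_all).2 fun c => (eventually_all).2 fun a => rp_int (B c a)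
  have h3' : ∀ᶠ t in (𝒰 : Filter α), ∀ c a, ∀ P ∈ Z t, P ∉ E.S t → Ge P 1 (rp (B c a) t) :=
    (eventually_all).2 fun c => (eventually_all).2 fun a => hB c a
  have ht0 : (0 : ℝ) ≤ (tri N : ℤ) := by
    have : 0 ≤ tri N := by
      unfold tri
      exact Finset.sum_nonneg fun _ _ => Int.natCast_nonneg _
    exact_mod_cast this
  filter_upwards [h1, h2, h3, h3', hE.eul (ε / ((tri N : ℤ) + 1)) (by positivity), hE.top 0]
    with t g1 g2 g3 g3' g4 g5
  have h0 : (0 : ℝ) ≤ ε * E.N t := by positivity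
  rcases isEmpty_or_nonempty {P // P ∈ E.S t} with he | ⟨⟨P0⟩⟩
  · rw [Finset.univ_eq_empty, Finset.sum_empty]
    exact h0
  let s' : Place k (E.K t) → κ := fun P => if h : P ∈ E.S t then s ⟨t, ⟨P, h⟩⟩ else s ⟨t, P0⟩
  have g6 := hW k (E.K t) (E.S t) (Z t) N κ (fun c a => rp (B c a) t) (hZ t) g3
    (fun c a P hP => g3' c a P hP (Finset.disjoint_right.1 (hZ t) hP)) g1 g2 s'
  have h4 : ∑ P : {P // P ∈ E.S t}, (N * gZ Z (⟨t, P⟩ : Om E) -
      ∑ a, Real.log (AV (B (s ⟨t, P⟩) a) ⟨t, P⟩)) =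
      ((∑ P ∈ E.S t, ∑ a, P.ord (rp (B (s' P) a) t) + N * (Z t).card : ℤ) : ℝ) := by
    rw [Finset.sum_sub_distrib, ← Finset.mul_sum, sum_gZ Z t ⟨P0.1, P0.2⟩]
    push_cast
    rw [← Finset.sum_coe_sort (E.S t)]
    have h5 : ∑ P : {P // P ∈ E.S t}, ∑ a, Real.log (AV (B (s ⟨t, P⟩) a) ⟨t, P⟩) =
        -∑ P : {P // P ∈ E.S t}, ∑ a, ((P.1.ord (rp (B (s' P.1) a) t) : ℤ) : ℝ) := by
      rw [← Finset.sum_neg_distrib]
      refine Finset.sum_congr rfl fun P _ => ?_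
      rw [← Finset.sum_neg_distrib]
      refine Finset.sum_congr rfl fun a _ => ?_
      have h5 : s' P.1 = s ⟨t, P⟩ := by
        simp only [s']
        rw [dif_pos P.2]
      rw [h5]
      have h6 : rp (B (s ⟨t, P⟩) a) t ≠ 0 := (g1 (s ⟨t, P⟩)).ne_zero a
      rw [log_AV (ω := ⟨t, P⟩) h6]
    rw [h5]
    ring
  rw [h4]
  have h5 : ((∑ P ∈ E.S t, ∑ a, P.ord (rp (B (s' P) a) t) + N * (Z t).card : ℤ) : ℝ) ≤
      ((tri N : ℤ) : ℝ) * ((euler (E.S t) : ℤ) : ℝ) := by exact_mod_cast g6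
  refine h5.trans ?_
  calc ((tri N : ℤ) : ℝ) * ((euler (E.S t) : ℤ) : ℝ) ≤
      ((tri N : ℤ) : ℝ) * (ε / ((tri N : ℤ) + 1) * E.N t) := mul_le_mul_of_nonneg_left g4 ht0
    _ = ε * E.N t * (((tri N : ℤ) : ℝ) / ((tri N : ℤ) + 1)) := by ring
    _ ≤ ε * E.N t * 1 := by
        refine mul_le_mul_of_nonneg_left ?_ h0
        rw [div_le_one (by positivity)]
        linarith
    _ = _ := mul_one _

/-- the ideal as a structure -/
noncomputable def gd (hW : WR2) (Z : ∀ t, Finset (Place k (E.K t)))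
    (hZ : ∀ t, Disjoint (E.S t) (Z t)) : Gd (DcS hWR hE) where
  I := vI E 𝒰 Z
  g := gZ Z
  nonneg := Filter.Eventually.of_forall fun ω => by
    unfold gZ
    positivity
  smt N κ _ B hB hli hsp s := gd_smt hE hW Z hZ N κ B hB hli hsp s

include hw in
/-- **Common zeros of coprime polynomials.** -/
theorem gcdE (hW : WR2) (hMV : S_MVG) (hG : S_GCD) (hr : 1 ≤ r)
    (hne : ∀ᶠ t in (𝒰 : Filter α), (E.S t).Nonempty)
    (p q : MvPolynomial (Fin r) (kk hWR hE)) (hp : p ≠ 0) (hpq : IsRelPrime p q)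
    (f g : ∀ t, E.K t) (hf : gs E 𝒰 f = eval₂ (vk hWR hE) (fun i => gs E 𝒰 (w i)) p)
    (hg : gs E 𝒰 g = eval₂ (vk hWR hE) (fun i => gs E 𝒰 (w i)) q)
    (Z : ∀ t, Finset (Place k (E.K t))) (hZ : ∀ t, Disjoint (E.S t) (Z t))
    (hZf : ∀ᶠ t in (𝒰 : Filter α), ∀ P ∈ Z t, Ge P 1 (f t) ∧ Ge P 1 (g t)) :
    SlowS E 𝒰 Z := by
  classical
  let G := gd hWR hE hW Z hZ
  let I' : Ideal (rr hWR hE) :=
    { carrier := {b | ∃ x ∈ G.I, ∃ d ∈ SS (DcS hWR hE), d ≠ 0 ∧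
        b * (mm hWR hE).j d = (mm hWR hE).j x}
      add_mem' := by
        rintro a b ⟨x, hx, d, hd, hd0, h⟩ ⟨x', hx', d', hd', hd0', h'⟩
        refine ⟨x * d' + x' * d, G.I.add_mem (G.I.mul_mem_right _ hx) (G.I.mul_mem_right _ hx'),
          d * d', Subring.mul_mem _ hd hd', mul_ne_zero hd0 hd0', ?_⟩
        rw [map_mul, map_add, map_mul, map_mul, ← h, ← h']
        ring
      zero_mem' := ⟨0, G.I.zero_mem, 1, Subring.one_mem _, one_ne_zero, by
        rw [map_zero, zero_mul]⟩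
      smul_mem' := by
        rintro c b ⟨x, hx, d, hd, hd0, h⟩
        obtain ⟨x', d', hd', hd0', h'⟩ := (mm hWR hE).rep_R c
        refine ⟨x' * x, G.I.mul_mem_left _ hx, d' * d, Subring.mul_mem _ hd' hd,
          mul_ne_zero hd0' hd0, ?_⟩
        rw [smul_eq_mul, map_mul, map_mul, ← h, ← h']
        ring }
  have hmem : ∀ (b : rr hWR hE) (f : ∀ t, E.K t), vr hWR hE b = gs E 𝒰 f →
      (∀ᶠ t in (𝒰 : Filter α), ∀ P ∈ Z t, Ge P 1 (f t)) → b ∈ I' := by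
    intro b f hb hfZ
    obtain ⟨x, d, hd, hd0, h, hfx⟩ := exists_nd hWR hE b f hb
    refine ⟨x, ?_, d, hd, hd0, h⟩
    show x ∈ vI E 𝒰 Z
    rw [mem_vI]
    filter_upwards [hfx, hfZ, rp_int d] with t g1 g2 g3 P hP hPS
    rw [g1.1]
    have := (g2 P hP).mul (g3 P hPS)
    rwa [add_zero] at this
  have h1 := hG (kk hWR hE) (rr hWR hE) (dd hWR hE) I' (gZ Z)
    (fun N κ _ B hB hli hsp s => hMV (K0 k Ω 𝒰) (R0 E 𝒰) (DcS hWR hE) G (kk hWR hE)
      (rr hWR hE) (mm hWR hE) (szdS hWR hE) N κ B hB hli hsp s) r (wr' hWR hE hw) hr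
    (indE hWR hE hw) q p hp hpq
    (hmem _ g (by rw [vr_aeval, hg]) (hZf.mono fun t ht P hP => (ht P hP).2))
    (hmem _ f (by rw [vr_aeval, hf]) (hZf.mono fun t ht P hP => (ht P hP).1))
  intro ε hε
  filter_upwards [h1 ε hε, hne] with t g1 g2
  rw [← sum_gZ Z t g2]
  exact g1

end Pool.Agent.N754.GF
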