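import Mathlib
import Pool.Agent.N754.GF.Eg
import Pool.Agent.N754.FV.Nc

/-!
The statements about units over the field of slow germs.
-/

set_option autoImplicit false
set_option linter.unusedSectionVars false
set_option linter.overlappingInstances false

open MvPolynomial FF Pool.Agent.W603.LV Filter

namespace Pool.Agent.N754.GF

open Pool.Agent.N754.FV
open Pool.Agent.N754.LT (Dc mon mon_val)
open Pool.Agent.N754.MT (Dm Mv SS mem_SS Szd KF RF kE rE kE_inj rE_inj mvF lg_j units_li mkK kE_mkK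
  jR rE_jR rEa)

variable {k Ω α : Type} [Field k] [Field Ω] [Algebra k Ω] [CharZero k] [IsAlgClosed k]

open Classical in
/-- enlarged sets of places -/
noncomputable abbrev enl (D : Sy k Ω α) {r : ℕ} (w : Fin r → ∀ t, D.K t) {J : Type} [Fintype J]
    (c : J → ∀ t, D.K t) (S' : ∀ t, Finset (Place k (D.K t))) : Sy k Ω α :=
  { K := D.K
    iF := D.iF
    iA := D.iA
    iI := D.iI
    σ := D.σ
    S := fun t => (D.S t ∪ S' t) ∪ Finset.univ.biUnion fun l => zp (k := k) (c l t)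
    o := fun t P => ∑ i, |(P.ord (w i t) : ℝ)| + ∑ l, |(P.ord (c l t) : ℝ)|
    N := D.N
    o_nonneg := fun t P => add_nonneg (Finset.sum_nonneg fun _ _ => abs_nonneg _)
      (Finset.sum_nonneg fun _ _ => abs_nonneg _) }

variable {D : Sy k Ω α} {𝒰 : Ultrafilter α}

section enlarge

variable {r : ℕ} {w : Fin r → ∀ t, D.K t} {J : Type} [Fintype J] {c : J → ∀ t, D.K t}
  {S' : ∀ t, Finset (Place k (D.K t))}

theorem card_enl (t : α) : (((enl D w c S').S t).card : ℤ) ≤
    (D.S t).card + (S' t).card + ∑ l, 2 * hgt k (c l t) := by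
  classical
  have h1 : ((enl D w c S').S t).card ≤ ((D.S t).card + (S' t).card) +
      ∑ l, (zp (k := k) (c l t)).card :=
    (Finset.card_union_le _ _).trans (add_le_add (Finset.card_union_le _ _)
      Finset.card_biUnion_le)
  have h2 : (((D.S t).card + (S' t).card + ∑ l, (zp (k := k) (c l t)).card : ℕ) : ℤ) ≤
      (D.S t).card + (S' t).card + ∑ l, 2 * hgt k (c l t) := by
    push_cast
    have := Finset.sum_le_sum fun l (_ : l ∈ (Finset.univ : Finset J)) =>
      card_zp_le (k := k) (c l t)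
    linarith
  have h3 : (((enl D w c S').S t).card : ℤ) ≤
      (((D.S t).card + (S' t).card + ∑ l, (zp (k := k) (c l t)).card : ℕ) : ℤ) := by
    exact_mod_cast h1
  exact h3.trans h2

theorem slow_card (hok : Ok D 𝒰) (hc : ∀ l, SlowE D 𝒰 (c l)) (hS : SlowS D 𝒰 S') :
    SlowS D 𝒰 (fun t => (enl D w c S').S t) := by
  have h1 : Slow D 𝒰 fun t => ((D.S t).card : ℝ) + ((S' t).card : ℝ) +
      ∑ l, 2 * ((hgt k (c l t) : ℤ) : ℝ) :=
    (Slow.add hok.card hS).add (Slow.sum _ _ (fun l _ => (hc l).smul 2 (by norm_num) (Ok.nn hok))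
      (Ok.nn hok))
  refine h1.mono (Eventually.of_forall fun t => ?_)
  have h2 := card_enl (w := w) (c := c) (S' := S') t
  exact_mod_cast h2

theorem enl_ok (hok : Ok D 𝒰) (hw : Un D 𝒰 w) (hc : ∀ l, SlowE D 𝒰 (c l))
    (hS : SlowS D 𝒰 S') : Ok (enl D w c S') 𝒰 where
  osum := by
    obtain ⟨C, hC, h1⟩ := hw.bdd
    refine ⟨∑ _i : Fin r, 2 * C + ∑ _l : J, 2 * 1, by positivity, ?_⟩
    have h2 : ∀ᶠ t in (𝒰 : Filter α), ∀ i, ((hgt k (w i t) : ℤ) : ℝ) ≤ C * D.N t :=
      eventually_all.2 h1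
    have h3 : ∀ᶠ t in (𝒰 : Filter α), ∀ l, ((hgt k (c l t) : ℤ) : ℝ) ≤ 1 * D.N t :=
      eventually_all.2 fun l => hc l 1 one_pos
    filter_upwards [h2, h3] with t g1 g2
    show ∑ P ∈ (enl D w c S').S t, (∑ i, |(P.ord (w i t) : ℝ)| + ∑ l, |(P.ord (c l t) : ℝ)|) ≤
      (∑ _i : Fin r, 2 * C + ∑ _l : J, 2 * 1) * D.N t
    rw [Finset.sum_add_distrib, Finset.sum_comm, Finset.sum_comm (t := (Finset.univ : Finset J)),
      add_mul, Finset.sum_mul, Finset.sum_mul]
    have h4 : ∀ f : D.K t, ∑ P ∈ (enl D w c S').S t, |(P.ord f : ℝ)| ≤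
        2 * ((hgt k f : ℤ) : ℝ) := by
      intro f
      have := sum_abs_le (k := k) f ((enl D w c S').S t)
      have h5 : ((∑ P ∈ (enl D w c S').S t, |P.ord f| : ℤ) : ℝ) ≤ ((2 * hgt k f : ℤ) : ℝ) := by
        exact_mod_cast this
      push_cast at h5
      exact h5
    refine add_le_add (Finset.sum_le_sum fun i _ => ?_) (Finset.sum_le_sum fun l _ => ?_)
    · refine (h4 _).trans ?_
      have := g1 i
      linarith
    · refine (h4 _).trans ?_
      have := g2 l
      linarith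
  top := hok.top
  card := slow_card hok hc hS
  eul := by
    have h1 : Slow D 𝒰 fun t => ((euler (D.S t) : ℤ) : ℝ) +
        (((enl D w c S').S t).card : ℝ) := Slow.add hok.eul (slow_card hok hc hS)
    refine h1.mono (Eventually.of_forall fun t => ?_)
    have h2 : euler ((enl D w c S').S t) ≤ euler (D.S t) + (((enl D w c S').S t).card : ℤ) := by
      unfold euler
      have : (0 : ℤ) ≤ ((D.S t).card : ℤ) := Int.natCast_nonneg _
      linarith
    have h3 : ((euler ((enl D w c S').S t) : ℤ) : ℝ) ≤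
        ((euler (D.S t) + (((enl D w c S').S t).card : ℤ) : ℤ) : ℝ) := by exact_mod_cast h2
    push_cast at h3
    exact h3

theorem enl_un (hw : Un D 𝒰 w) : UnE (enl D w c S') 𝒰 w where
  unit i := by
    filter_upwards [hw.unit i] with t ht
    refine ⟨ht.1, fun P hP => ht.2 P fun h => hP ?_⟩
    classical
    exact Finset.mem_union_left _ (Finset.mem_union_left _ h)
  bdd i := by
    refine Eventually.of_forall fun t P _ => ?_
    show |(P.ord (w i t) : ℝ)| ≤ ∑ i, |(P.ord (w i t) : ℝ)| + ∑ l, |(P.ord (c l t) : ℝ)|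
    have h1 := Finset.single_le_sum (f := fun i => |(P.ord (w i t) : ℝ)|)
      (fun _ _ => abs_nonneg _) (Finset.mem_univ i)
    have h2 : 0 ≤ ∑ l, |(P.ord (c l t) : ℝ)| := Finset.sum_nonneg fun _ _ => abs_nonneg _
    linarith
  ind := hw.ind

theorem enl_c (hWR : WR) (hE : Ok (enl D w c S') 𝒰) (hc : ∀ l, SlowE D 𝒰 (c l)) (l : J) :
    ∃ a : kk hWR hE, vk hWR hE a = gs D 𝒰 (c l) := by
  classical
  refine exists_kk hWR hE (c l) (Eventually.of_forall fun t P hP => ?_) ?_ (hc l)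
  · refine Or.inr (le_of_eq ?_)
    by_contra h
    apply hP
    refine Finset.mem_union_right _ (Finset.mem_biUnion.2 ⟨l, Finset.mem_univ _, ?_⟩)
    rw [mem_zp]
    exact fun h2 => h h2.symm
  · refine ⟨1, zero_le_one, Eventually.of_forall fun t P _ => ?_⟩
    rw [one_mul]
    show -(P.ord (c l t) : ℝ) ≤ ∑ i, |(P.ord (w i t) : ℝ)| + ∑ l, |(P.ord (c l t) : ℝ)|
    have h1 := Finset.single_le_sum (f := fun l => |(P.ord (c l t) : ℝ)|)
      (fun _ _ => abs_nonneg _) (Finset.mem_univ l)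
    have h2 : 0 ≤ ∑ i, |(P.ord (w i t) : ℝ)| := Finset.sum_nonneg fun _ _ => abs_nonneg _
    have h3 := neg_le_abs (P.ord (c l t) : ℝ)
    linarith

/-- the inclusion of the coefficients -/
noncomputable def ic (hWR : WR) (hok : Ok D 𝒰) (hE : Ok (enl D w c S') 𝒰) :
    kk hWR hE →+* κS hok :=
  (vk hWR hE).codRestrict (κS hok) (fun a => vk_mem hWR hE a)

theorem ic_val (hWR : WR) (hok : Ok D 𝒰) (hE : Ok (enl D w c S') 𝒰) (a : kk hWR hE) :
    ((ic hWR hok hE a : κS hok) : GC Ω α 𝒰) = vk hWR hE a := rfl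

theorem exists_lift (hWR : WR) (hok : Ok D 𝒰) (hE : Ok (enl D w c S') 𝒰)
    (hc : ∀ l, SlowE D 𝒰 (c l)) (p : MvPolynomial (Fin r) (κS hok))
    (h : ∀ m ∈ p.support, ∃ l, ((coeff m p : κS hok) : GC Ω α 𝒰) = gs D 𝒰 (c l)) :
    ∃ p' : MvPolynomial (Fin r) (kk hWR hE), map (ic hWR hok hE) p' = p := by
  have h1 : p ∈ Set.range (map (σ := Fin r) (ic hWR hok hE)) := by
    rw [mem_range_map_iff_coeffs_subset]
    intro x hx
    rw [Finset.mem_coe, mem_coeffs_iff] at hx
    obtain ⟨m, hm, rfl⟩ := hx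
    obtain ⟨l, hl⟩ := h m hm
    obtain ⟨a, ha⟩ := enl_c hWR hE hc l
    exact ⟨a, Subtype.ext (by rw [ic_val, ha, hl])⟩
  exact h1

theorem eval_lift (hWR : WR) (hok : Ok D 𝒰) (hE : Ok (enl D w c S') 𝒰)
    (p' : MvPolynomial (Fin r) (kk hWR hE)) :
    aeval (fun i => gs D 𝒰 (w i)) (map (ic hWR hok hE) p') =
      eval₂ (vk hWR hE) (fun i => gs D 𝒰 (w i)) p' := by
  rw [aeval_def, eval₂_map]
  rfl

end enlarge

theorem isUnit_of_map {F G : Type} [Field F] [Field G] (ι : F →+* G) {r : ℕ}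
    (d : MvPolynomial (Fin r) F) (h : IsUnit (MvPolynomial.map ι d)) : IsUnit d := by
  rw [MvPolynomial.isUnit_iff] at h ⊢
  refine ⟨?_, fun m hm => ?_⟩
  · have h1 := h.1
    rw [coeff_map] at h1
    exact (isUnit_map_iff ι _).1 h1
  · have h1 := h.2 m hm
    rw [coeff_map] at h1
    have h2 := h1.eq_zero
    rw [(map_eq_zero ι).1 h2]
    exact IsNilpotent.zero

theorem isRelPrime_of_map {F G : Type} [Field F] [Field G] (ι : F →+* G) {r : ℕ}
    (p q : MvPolynomial (Fin r) F)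
    (h : IsRelPrime (MvPolynomial.map ι p) (MvPolynomial.map ι q)) : IsRelPrime p q := by
  intro d hp hq
  exact isUnit_of_map ι d (h (map_dvd (MvPolynomial.map ι) hp) (map_dvd (MvPolynomial.map ι) hq))

/-- a representative of a slow germ -/
noncomputable def rq {hok : Ok D 𝒰} (x : κS hok) : ∀ t, D.K t := x.2.choose

theorem rq_eq {hok : Ok D 𝒰} (x : κS hok) : (x : GC Ω α 𝒰) = gs D 𝒰 (rq x) := x.2.choose_spec.1

theorem rq_slow {hok : Ok D 𝒰} (x : κS hok) : SlowE D 𝒰 (rq x) := x.2.choose_spec.2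

theorem slowS_empty (hok : Ok D 𝒰) : SlowS D 𝒰 (fun _ => ∅) := by
  refine (Slow.zero (Ok.nn hok)).mono (Eventually.of_forall fun t => ?_)
  simp

theorem ind (hWR : WR) (hok : Ok D 𝒰) : IND hok := by
  classical
  intro r w hw
  show Function.Injective (aeval (R := κS hok) fun i => gs D 𝒰 (w i))
  rw [injective_iff_map_eq_zero]
  intro p hp
  let c : p.support → ∀ t, D.K t := fun m => rq (coeff m.1 p)
  have hc : ∀ l, SlowE D 𝒰 (c l) := fun l => rq_slow _
  have hE : Ok (enl D w c (fun _ => ∅)) 𝒰 := enl_ok hok hw hc (slowS_empty hok)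
  obtain ⟨p', hp'⟩ := exists_lift hWR hok hE hc p fun m hm => ⟨⟨m, hm⟩, rq_eq _⟩
  have h1 := indE hWR hE (enl_un (c := c) (S' := fun _ => ∅) hw)
  have h2 : aeval (fun i => (wr' hWR hE (enl_un (c := c) (S' := fun _ => ∅) hw) i :
      rr hWR hE)) p' = 0 := by
    apply rE_inj (DcS hWR hE) (rV (enl D w c (fun _ => ∅)) 𝒰)
    rw [map_zero]
    refine (vr_aeval hWR hE (enl_un (c := c) (S' := fun _ => ∅) hw) p').trans ?_
    refine (eval_lift hWR hok hE p').symm.trans ?_
    rw [hp', hp]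
  have h3 : p' = 0 := h1 (by rw [h2, map_zero])
  rw [← hp', h3, map_zero]

theorem exists_min {K : Type} [Field K] [Algebra k K] (P : Place k K) {ι : Type} (T : Finset ι)
    (z : ι → K) (f : K) (hf : f ≠ 0) (h : f = ∑ i ∈ T, z i) :
    ∃ i ∈ T, z i ≠ 0 ∧ P.ord (z i) ≤ P.ord f := by
  by_contra hcon
  push Not at hcon
  have h1 : Ge P (P.ord f + 1) f := by
    rw [h]
    refine Ge.sum _ _ fun i hi => ?_
    by_cases h0 : z i = 0
    · exact Or.inl h0
    · right
      have := hcon i hi h0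
      rw [← h]
      omega
  rcases h1 with h1 | h1
  · exact hf h1
  · omega

theorem maxs (hWR : WR) (hM : S_MAX) (hok : Ok D 𝒰) : MAXS hok := by
  classical
  intro r w hw p hp f hf S' hS' m hm
  let c : p.support → ∀ t, D.K t := fun m => rq (coeff m.1 p)
  have hc : ∀ l, SlowE D 𝒰 (c l) := fun l => rq_slow _
  have hE : Ok (enl D w c S') 𝒰 := enl_ok hok hw hc hS'
  obtain ⟨p', hp'⟩ := exists_lift hWR hok hE hc p fun m hm => ⟨⟨m, hm⟩, rq_eq _⟩
  have hp'0 : p' ≠ 0 := by
    rintro rfl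
    rw [map_zero] at hp'
    exact hp hp'.symm
  have hsupp : p'.support = p.support := by
    have h1 := support_map_of_injective p' (ic hWR hok hE).injective
    rw [hp'] at h1
    exact h1.symm
  -- the function as a sum
  have hsum : ∀ᶠ t in (𝒰 : Filter α), f t = ∑ l : p.support, c l t * ∏ i, w i t ^ (l.1 i) := by
    rw [← gs_eq D 𝒰 f (fun t => ∑ l : p.support, c l t * ∏ i, w i t ^ (l.1 i)), hf]
    have h1 : gs D 𝒰 (fun t => ∑ l : p.support, c l t * ∏ i, w i t ^ (l.1 i)) =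
        ∑ l : p.support, gs D 𝒰 (fun t => c l t * ∏ i, w i t ^ (l.1 i)) := by
      have h2 : ∀ s : Finset p.support, gs D 𝒰 (fun t => ∑ l ∈ s, c l t * ∏ i, w i t ^ (l.1 i)) =
          ∑ l ∈ s, gs D 𝒰 (fun t => c l t * ∏ i, w i t ^ (l.1 i)) := by
        intro s
        induction s using Finset.induction_on with
        | empty => simpa using gs_zero D 𝒰
        | insert a s ha ih =>
          simp only [Finset.sum_insert ha]
          rw [gs_add, ih]
      exact h2 _
    rw [h1]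
    conv_lhs => rw [p.as_sum]
    rw [map_sum, ← Finset.sum_coe_sort]
    refine Finset.sum_congr rfl fun l _ => ?_
    rw [aeval_monomial, Finsupp.prod_fintype _ _ (fun i => pow_zero _), gs_mul, gs_prod]
    have h3 : algebraMap (κS hok) (GC Ω α 𝒰) (coeff l.1 p) = gs D 𝒰 (c l) := rq_eq _
    rw [h3]
    congr 1
    refine Finset.prod_congr rfl fun i _ => ?_
    have h4 := gs_zpow (E := D) (𝒰 := 𝒰) (w i) (l.1 i : ℤ)
    simp only [zpow_natCast] at h4
    exact h4.symm
  have hf0 : ∀ᶠ t in (𝒰 : Filter α), f t ≠ 0 := by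
    rw [Ultrafilter.eventually_not]
    intro h0
    apply hp
    apply ind hWR hok r w hw
    rw [map_zero, ← hf, ← gs_zero D 𝒰, gs_eq]
    exact h0
  have hw0 : ∀ᶠ t in (𝒰 : Filter α), ∀ i, w i t ≠ 0 :=
    eventually_all.2 fun i => (hw.unit i).mono fun t ht => ht.1
  have hpne : p.support.Nonempty := by
    rw [Finset.nonempty_iff_ne_empty]
    intro h
    exact hp (support_eq_empty.1 h)
  -- the selection outside `S'`
  have hsel : ∀ t (P : Place k (D.K t)), ∃ a ∈ p.support,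
      f t ≠ 0 → (∀ i, w i t ≠ 0) → f t = ∑ l : p.support, c l t * ∏ i, w i t ^ (l.1 i) →
      -∑ l : p.support, ((max (-P.ord (c l t)) 0 : ℤ) : ℝ) ≤
        (P.ord (f t) : ℝ) - ∑ i, (a i : ℝ) * (P.ord (w i t) : ℝ) := by
    intro t P
    by_cases hcond : f t ≠ 0 ∧ (∀ i, w i t ≠ 0) ∧
        f t = ∑ l : p.support, c l t * ∏ i, w i t ^ (l.1 i)
    · obtain ⟨h1, h2, h3⟩ := hcond
      obtain ⟨l, -, h4, h5⟩ := exists_min P Finset.univ
        (fun l : p.support => c l t * ∏ i, w i t ^ (l.1 i)) (f t) h1 h3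
      refine ⟨l.1, l.2, fun _ _ _ => ?_⟩
      have h6 : c l t ≠ 0 := left_ne_zero_of_mul h4
      rw [P.ord_mul h6 (right_ne_zero_of_mul h4), ord_prod_pow P _ _ (fun i _ => h2 i)] at h5
      have h7 : max (-P.ord (c l t)) 0 ≤ ∑ l : p.support, max (-P.ord (c l t)) 0 :=
        Finset.single_le_sum (f := fun l : p.support => max (-P.ord (c l t)) 0)
          (fun _ _ => le_max_right _ _) (Finset.mem_univ l)
      have h8 := le_max_left (-P.ord (c l t)) 0
      have h9 : -∑ l : p.support, (max (-P.ord (c l t)) 0 : ℤ) ≤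
          P.ord (f t) - ∑ i, (l.1 i : ℤ) * P.ord (w i t) := by linarith
      have h10 : ((-∑ l : p.support, (max (-P.ord (c l t)) 0 : ℤ) : ℤ) : ℝ) ≤
          ((P.ord (f t) - ∑ i, (l.1 i : ℤ) * P.ord (w i t) : ℤ) : ℝ) := by exact_mod_cast h9
      simpa only [Int.cast_neg, Int.cast_sum, Int.cast_sub, Int.cast_mul, Int.cast_natCast]
        using h10
    · obtain ⟨a, ha⟩ := hpne
      exact ⟨a, ha, fun h1 h2 h3 => absurd ⟨h1, h2, h3⟩ hcond⟩
  choose a ha1 ha2 using hsel
  let m' : ∀ t, Place k (D.K t) → (Fin r →₀ ℕ) := fun t P => if P ∈ S' t then m t P else a t P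
  have hm' : ∀ t P, m' t P ∈ p'.support := by
    intro t P
    rw [hsupp]
    simp only [m']
    split_ifs
    · exact hm t P
    · exact ha1 t P
  have hmain := maxE hWR hE (enl_un (c := c) (S' := S') hw) hM p' hp'0 f
    (hf.trans ((congrArg (aeval fun i => gs D 𝒰 (w i)) hp'.symm).trans
      (eval_lift hWR hok hE p'))) m' hm'
  have h1 : Slow D 𝒰 fun t => (∑ P ∈ (enl D w c S').S t,
      ((P.ord (f t) : ℝ) - ∑ i, (m' t P i : ℝ) * (P.ord (w i t) : ℝ))) +
      ∑ l : p.support, ((hgt k (c l t) : ℤ) : ℝ) :=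
    Slow.add hmain (Slow.sum _ _ (fun l _ => hc l) (Ok.nn hok))
  refine h1.mono ?_
  filter_upwards [hsum, hf0, hw0] with t g1 g2 g3
  have hsub : S' t ⊆ (enl D w c S').S t := fun P hP =>
    Finset.mem_union_left _ (Finset.mem_union_right _ hP)
  rw [← Finset.sum_sdiff hsub]
  have h2 : ∑ P ∈ S' t, ((P.ord (f t) : ℝ) - ∑ i, (m' t P i : ℝ) * (P.ord (w i t) : ℝ)) =
      ∑ P ∈ S' t, ((P.ord (f t) : ℝ) - ∑ i, (m t P i : ℝ) * (P.ord (w i t) : ℝ)) := by
    refine Finset.sum_congr rfl fun P hP => ?_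
    simp only [m', if_pos hP]
  have h3 : -∑ l : p.support, ((hgt k (c l t) : ℤ) : ℝ) ≤
      ∑ P ∈ (enl D w c S').S t \ S' t,
        ((P.ord (f t) : ℝ) - ∑ i, (m' t P i : ℝ) * (P.ord (w i t) : ℝ)) := by
    have h4 : ∀ P ∈ (enl D w c S').S t \ S' t,
        -∑ l : p.support, ((max (-P.ord (c l t)) 0 : ℤ) : ℝ) ≤
        (P.ord (f t) : ℝ) - ∑ i, (m' t P i : ℝ) * (P.ord (w i t) : ℝ) := by
      intro P hP
      have h5 := ha2 t P g2 g3 g1
      simp only [m', if_neg (Finset.mem_sdiff.1 hP).2]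
      exact h5
    refine le_trans ?_ (Finset.sum_le_sum h4)
    rw [Finset.sum_neg_distrib, neg_le_neg_iff, Finset.sum_comm]
    refine Finset.sum_le_sum fun l _ => ?_
    have h6 := part_le_hgt (k := k) ((enl D w c S').S t \ S' t) (c l t)
    push_cast
    exact h6
  linarith

theorem gcds (hWR : WR) (hW : WR2) (hMV : S_MVG) (hG : S_GCD) (hok : Ok D 𝒰) : GCDS hok := by
  classical
  intro r w hw p q hp hpq f g hf hg
  have hf0 : ∀ᶠ t in (𝒰 : Filter α), f t ≠ 0 := by
    rw [Ultrafilter.eventually_not]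
    intro h0
    apply hp
    apply ind hWR hok r w hw
    rw [map_zero, ← hf, ← gs_zero D 𝒰, gs_eq]
    exact h0
  rcases Nat.eq_zero_or_pos r with hr | hr
  · -- constants
    subst hr
    refine ⟨fun t => zp (k := k) (f t), ?_, ?_⟩
    · have h1 : gs D 𝒰 f ∈ κS hok := by
        rw [hf, MvPolynomial.eq_C_of_isEmpty p, aeval_C]
        exact (coeff 0 p).2
      rw [gs_mem_κS] at h1
      refine (Slow.smul h1 2 (by norm_num) (Ok.nn hok)).mono (Eventually.of_forall fun t => ?_)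
      have := card_zp_le (k := k) (f t)
      exact_mod_cast this
    · filter_upwards [hf0] with t h0 P hP h1
      rcases h1.1 with h2 | h2
      · exact h0 h2
      · apply hP
        rw [mem_zp]
        omega
  let c : p.support ⊕ q.support → ∀ t, D.K t :=
    Sum.elim (fun m => rq (coeff m.1 p)) (fun m => rq (coeff m.1 q))
  have hc : ∀ l, SlowE D 𝒰 (c l) := by
    rintro (l | l)
    · exact rq_slow _
    · exact rq_slow _
  have hE : Ok (enl D w c (fun _ => ∅)) 𝒰 := enl_ok hok hw hc (slowS_empty hok)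
  obtain ⟨p', hp'⟩ := exists_lift hWR hok hE hc p fun m hm => ⟨Sum.inl ⟨m, hm⟩, rq_eq _⟩
  obtain ⟨q', hq'⟩ := exists_lift hWR hok hE hc q fun m hm => ⟨Sum.inr ⟨m, hm⟩, rq_eq _⟩
  have hp'0 : p' ≠ 0 := by
    rintro rfl
    rw [map_zero] at hp'
    exact hp hp'.symm
  have hne : ∀ᶠ t in (𝒰 : Filter α), ((enl D w c (fun _ => ∅)).S t).Nonempty := by
    by_contra hcon
    rw [← Ultrafilter.eventually_not] at hcon
    have h1 := hw.ind (Pi.single ⟨0, hr⟩ 1) (by
      refine (Slow.zero (Ok.nn hok)).mono ?_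
      filter_upwards [hcon, hw.unit ⟨0, hr⟩] with t g1 g2
      have h3 : (∏ i, w i t ^ (Pi.single (⟨0, hr⟩ : Fin r) (1 : ℤ) : Fin r → ℤ) i) =
          w ⟨0, hr⟩ t := by
        rw [Finset.prod_eq_single (⟨0, hr⟩ : Fin r)]
        · rw [Pi.single_eq_same, zpow_one]
        · intro i _ hi
          rw [Pi.single_eq_of_ne hi, zpow_zero]
        · intro h
          exact absurd (Finset.mem_univ _) h
      rw [h3]
      have h4 : hgt k (w ⟨0, hr⟩ t) = 0 := by
        rw [hgt_finset (k := k) (w ⟨0, hr⟩ t) ∅ (fun P hP => ?_)]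
        · rfl
        · exfalso
          apply hP
          apply g2.2 P
          intro h
          exact g1 ⟨P, Finset.mem_union_left _ (Finset.mem_union_left _ h)⟩
      rw [h4]
      simp)
    have h2 := congrFun h1 ⟨0, hr⟩
    rw [Pi.single_eq_same] at h2
    exact one_ne_zero h2
  let Z0 : ∀ t, Finset (Place k (D.K t)) := fun t =>
    (zp (k := k) (f t)).filter fun P => P ∉ (enl D w c (fun _ => ∅)).S t ∧ Ge P 1 (f t) ∧
      Ge P 1 (g t)
  have hZ0 : SlowS D 𝒰 Z0 := gcdE hWR hE (enl_un (c := c) (S' := fun _ => ∅) hw) hW hMV hG hr hne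
    p' q' hp'0 (isRelPrime_of_map (ic hWR hok hE) p' q' (by rw [hp', hq']; exact hpq)) f g
    (hf.trans ((congrArg (aeval fun i => gs D 𝒰 (w i)) hp'.symm).trans
      (eval_lift hWR hok hE p')))
    (hg.trans ((congrArg (aeval fun i => gs D 𝒰 (w i)) hq'.symm).trans
      (eval_lift hWR hok hE q'))) Z0
    (fun t => by
      rw [Finset.disjoint_left]
      intro P hP hPZ
      exact (Finset.mem_filter.1 hPZ).2.1 hP)
    (Eventually.of_forall fun t P hP => (Finset.mem_filter.1 hP).2.2)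
  refine ⟨fun t => Z0 t ∪ (enl D w c (fun _ => ∅)).S t, ?_, ?_⟩
  · refine (Slow.add hZ0 (slow_card (w := w) hok hc (slowS_empty hok))).mono
      (Eventually.of_forall fun t => ?_)
    exact_mod_cast Finset.card_union_le _ _
  · filter_upwards [hf0] with t h0 P hP h1
    apply hP
    by_cases h2 : P ∈ (enl D w c (fun _ => ∅)).S t
    · exact Finset.mem_union_right _ h2
    · refine Finset.mem_union_left _ (Finset.mem_filter.2 ⟨?_, h2, h1⟩)
      rw [mem_zp]
      rcases h1.1 with h3 | h3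
      · exact absurd h3 h0
      · omega

end Pool.Agent.N754.GF
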