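import Mathlib
import Pool.Agent.N754.GF.Tr
import Pool.Agent.N754.LG.Use
import Pool.Agent.N543.GF.WR2
import Pool.Agent.N93.GF.MVG
import Pool.Agent.N281.GF.GCD
import Pool.Agent.N499.GF.MAX
import Pool.Agent.N674.GF.ALG
import Pool.Agent.N284.GF.EXT
import Pool.Agent.N803.GF.DBD
import Pool.Agent.N691.GF.REGD
import Pool.Agent.N263.GF.LOGD
import Pool.Agent.N592.GF.TOR
import Pool.Agent.N901.GF.PLC
import Pool.Agent.N186.GF.UF
import Pool.Agent.N650.GF.DER
import Pool.Agent.N216.GF.EQV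
import Pool.Agent.N278.GF.TwoA
import Pool.Agent.N946.GF.TwoB
import Pool.Agent.N608.GF.INP1
import Pool.Agent.N323.GF.INP2
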