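import Mathlib
import Pool.Agent.N754.GF.All

/-!
The field of slow functions, and the choice of units.
-/

set_option autoImplicit false
set_option linter.unusedSectionVars false
set_option linter.overlappingInstances false

open MvPolynomial FF Pool.Agent.W603.LV Filter

namespace Pool.Agent.N754.GF

open Pool.Agent.N754.FV

section ev

variable {k Ω α : Type} [Field k] [Field Ω] [Algebra k Ω] [CharZero k] [IsAlgClosed k]
  {D : Sy k Ω α} {𝒰 : Ultrafilter α} {K : Type} [Field K] [Algebra k K] (E : Evl D 𝒰 K)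

theorem ev_zero : ∀ᶠ t in (𝒰 : Filter α), E.ev 0 t = 0 := by
  filter_upwards [E.add 0 0] with t h
  rw [add_zero] at h
  exact left_eq_add.1 h

theorem ev_one : ∀ᶠ t in (𝒰 : Filter α), E.ev 1 t = 1 := by
  filter_upwards [E.const 1] with t h
  rw [map_one, map_one] at h
  exact h

theorem ev_inv (f : K) : ∀ᶠ t in (𝒰 : Filter α), E.ev f⁻¹ t = (E.ev f t)⁻¹ := by
  by_cases hf : f = 0
  · subst hf
    rw [inv_zero]
    filter_upwards [ev_zero E] with t h
    rw [h, inv_zero]
  · filter_upwards [E.mul f⁻¹ f, ev_one E, E.ne f hf] with t h1 h2 h3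
    rw [inv_mul_cancel₀ hf, h2] at h1
    exact eq_inv_of_mul_eq_one_left h1.symm

theorem ev_sum {ι : Type} (s : Finset ι) (f : ι → K) :
    ∀ᶠ t in (𝒰 : Filter α), E.ev (∑ i ∈ s, f i) t = ∑ i ∈ s, E.ev (f i) t := by
  classical
  induction s using Finset.induction_on with
  | empty => simpa using ev_zero E
  | insert i s hi ih =>
    simp only [Finset.sum_insert hi]
    filter_upwards [ih, E.add (f i) (∑ i ∈ s, f i)] with t h1 h2
    rw [h2, h1]

theorem ev_prod {ι : Type} (s : Finset ι) (f : ι → K) :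
    ∀ᶠ t in (𝒰 : Filter α), E.ev (∏ i ∈ s, f i) t = ∏ i ∈ s, E.ev (f i) t := by
  classical
  induction s using Finset.induction_on with
  | empty => simpa using ev_one E
  | insert i s hi ih =>
    simp only [Finset.prod_insert hi]
    filter_upwards [ih, E.mul (f i) (∏ i ∈ s, f i)] with t h1 h2
    rw [h2, h1]

theorem ev_pow (f : K) (n : ℕ) : ∀ᶠ t in (𝒰 : Filter α), E.ev (f ^ n) t = E.ev f t ^ n := by
  induction n with
  | zero => simpa using ev_one E
  | succ n ih =>
    simp only [pow_succ]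
    filter_upwards [ih, E.mul (f ^ n) f] with t h1 h2
    rw [h2, h1]

theorem ev_zpow (f : K) (n : ℤ) : ∀ᶠ t in (𝒰 : Filter α), E.ev (f ^ n) t = E.ev f t ^ n := by
  obtain ⟨m, rfl | rfl⟩ := n.eq_nat_or_neg
  · simp only [zpow_natCast]
    exact ev_pow E f m
  · simp only [zpow_neg, zpow_natCast]
    filter_upwards [ev_inv E (f ^ m), ev_pow E f m] with t h1 h2
    rw [h1, h2]

theorem ev_aeval {ι : Type} (b : ι → K) (F : MvPolynomial ι k) :
    ∀ᶠ t in (𝒰 : Filter α), E.ev (aeval b F) t = aeval (fun i => E.ev (b i) t) F := by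
  induction F using MvPolynomial.induction_on with
  | C c =>
    filter_upwards [E.const c] with t ht
    rw [aeval_C, aeval_C, ht]
  | add p q hp hq =>
    filter_upwards [hp, hq, E.add (aeval b p) (aeval b q)] with t h1 h2 h3
    rw [map_add, h3, h1, h2, map_add]
  | mul_X p i hp =>
    filter_upwards [hp, E.mul (aeval b p) (b i)] with t h1 h2
    rw [map_mul, aeval_X, h2, h1, map_mul, aeval_X]

/-- roots of monic polynomials have bounded height -/
theorem hgt_root {L : Type} [Field L] [Algebra k L] [IsFF k L] (f : L) (d : ℕ) (hd : 0 < d)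
    (c : Fin d → L) (h : f ^ d + ∑ i, c i * f ^ (i : ℕ) = 0) :
    hgt k f ≤ ∑ i, hgt k (c i) := by
  classical
  have hcL : CharZero L := charZero_of_injective_algebraMap (algebraMap k L).injective
  obtain ⟨T, hT⟩ := exists_supp (k := k) (Finset.univ : Finset (Option (Fin d)))
    (fun o => o.elim f c)
  have h1 : ∀ P : Place k L, P.ord f ≠ 0 → P ∈ T := fun P => hT none (Finset.mem_univ _) P
  have h2 : ∀ i, ∀ P : Place k L, P.ord (c i) ≠ 0 → P ∈ T := fun i P =>
    hT (some i) (Finset.mem_univ _) P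
  rw [hgt_finset _ T h1, Finset.sum_congr rfl fun i _ => hgt_finset (c i) T (h2 i),
    Finset.sum_comm]
  refine Finset.sum_le_sum fun P _ => ?_
  have h0 : 0 ≤ ∑ i, max (-P.ord (c i)) 0 := Finset.sum_nonneg fun _ _ => le_max_right _ _
  refine max_le ?_ h0
  by_contra hcon
  push Not at hcon
  set m : ℤ := -P.ord f with hm
  have hf0 : f ≠ 0 := by
    rintro rfl
    rw [P.ord_zero] at hm
    omega
  have h3 : Ge P (-((d : ℤ) * m) + 1) (∑ i, c i * f ^ (i : ℕ)) := by
    refine Ge.sum _ _ fun i _ => ?_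
    have h4 : max (-P.ord (c i)) 0 ≤ ∑ i, max (-P.ord (c i)) 0 :=
      Finset.single_le_sum (f := fun i => max (-P.ord (c i)) 0) (fun _ _ => le_max_right _ _)
        (Finset.mem_univ i)
    have h5 : Ge P (-m + 1) (c i) := by
      by_cases hc : c i = 0
      · exact Or.inl hc
      · right
        have := le_max_left (-P.ord (c i)) 0
        omega
    have h6 : Ge P (-m) f := Or.inr (by omega)
    have h7 := h5.mul (h6.pow i)
    refine h7.mono ?_
    have h8 : ((i : ℕ) : ℤ) ≤ (d : ℤ) - 1 := by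
      have := i.2
      omega
    have h9 : 0 < m := by omega
    nlinarith
  have h4 : f ^ d = -∑ i, c i * f ^ (i : ℕ) := eq_neg_of_add_eq_zero_left h
  have h5 : Ge P (-((d : ℤ) * m) + 1) (f ^ d) := by
    rw [h4]
    exact h3.neg
  rcases h5 with h5 | h5
  · exact pow_ne_zero _ hf0 h5
  · rw [P.ord_pow] at h5
    have : (d : ℤ) * P.ord f = -((d : ℤ) * m) := by rw [hm]; ring
    omega

/-- the field of slow functions -/
noncomputable def k0 (hok : Ok D 𝒰) : IntermediateField k K where
  carrier := {f | SlowE D 𝒰 (E.ev f)}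
  mul_mem' := by
    intro a b ha hb
    exact (SlowE.mul ha hb).congr ((E.mul a b).mono fun t h => h.symm)
  add_mem' := by
    intro a b ha hb
    exact (SlowE.add ha hb).congr ((E.add a b).mono fun t h => h.symm)
  algebraMap_mem' := by
    intro c
    exact (SlowE.const (Ok.nn hok) fun _ => c).congr ((E.const c).mono fun t h => h.symm)
  inv_mem' := by
    intro a ha
    exact (SlowE.inv ha).congr ((ev_inv E a).mono fun t h => h.symm)

theorem mem_k0 (hok : Ok D 𝒰) (f : K) : f ∈ k0 E hok ↔ SlowE D 𝒰 (E.ev f) := Iff.rfl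

theorem k0_closed (hok : Ok D 𝒰) (f : K) (hf : IsAlgebraic (k0 E hok) f) : f ∈ k0 E hok := by
  classical
  have hi : IsIntegral (k0 E hok) f := hf.isIntegral
  set q := minpoly (k0 E hok) f with hq
  set d := q.natDegree with hd
  have hd0 : 0 < d := minpoly.natDegree_pos hi
  have h1 : f ^ d + ∑ i : Fin d, ((q.coeff i : k0 E hok) : K) * f ^ (i : ℕ) = 0 := by
    have h2 := minpoly.aeval (k0 E hok) f
    rw [Polynomial.aeval_eq_sum_range, Finset.sum_range_succ, ← hq, ← hd] at h2
    have h3 : q.coeff d = 1 := (minpoly.monic hi).coeff_natDegree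
    rw [h3, one_smul, add_comm, Finset.sum_range] at h2
    exact h2
  rw [mem_k0]
  have h2 : ∀ᶠ t in (𝒰 : Filter α), E.ev f t ^ d +
      ∑ i : Fin d, E.ev ((q.coeff i : k0 E hok) : K) t * E.ev f t ^ (i : ℕ) = 0 := by
    have g1 : ∀ᶠ t in (𝒰 : Filter α), ∀ i : Fin d,
        E.ev (((q.coeff i : k0 E hok) : K) * f ^ (i : ℕ)) t =
        E.ev ((q.coeff i : k0 E hok) : K) t * E.ev f t ^ (i : ℕ) := by
      refine eventually_all.2 fun i => ?_
      filter_upwards [E.mul ((q.coeff i : k0 E hok) : K) (f ^ (i : ℕ)), ev_pow E f i] with t e1 e2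
      rw [e1, e2]
    filter_upwards [g1, ev_pow E f d, E.add (f ^ d)
      (∑ i : Fin d, ((q.coeff i : k0 E hok) : K) * f ^ (i : ℕ)),
      ev_sum E Finset.univ (fun i : Fin d => ((q.coeff i : k0 E hok) : K) * f ^ (i : ℕ)),
      ev_zero E] with t e1 e2 e3 e4 e5
    rw [h1, e5, e2, e4, Finset.sum_congr rfl fun i _ => e1 i] at e3
    exact e3.symm
  have h3 : Slow D 𝒰 fun t => ∑ i : Fin d, ((hgt k (E.ev ((q.coeff i : k0 E hok) : K) t) : ℤ) : ℝ) :=
    Slow.sum _ _ (fun i _ => (mem_k0 E hok _).1 (q.coeff i).2) (Ok.nn hok)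
  refine h3.mono ?_
  filter_upwards [h2] with t ht
  have h4 := hgt_root (k := k) (E.ev f t) d hd0 _ ht
  exact_mod_cast h4

end ev

/-- a maximal multiplicatively independent family of units -/
theorem sel {k K : Type} [Field k] [Field K] [Algebra k K] (κ : IntermediateField k K) {n : ℕ}
    (y : Fin n → K) (U : Finset (Fin n)) (hU : ∀ i ∈ U, y i ≠ 0) :
    ∃ (r : ℕ) (w : Fin r → K), (∀ i, ∃ j ∈ U, w i = y j) ∧
      (∀ e : Fin r → ℤ, ∏ i, w i ^ e i ∈ κ → e = 0) ∧
      ∀ j ∈ U, IsAlgebraic (Algebra.adjoin k ((κ : Set K) ∪ Set.range w)) (y j) := by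
  classical
  let Pr : ℕ → Prop := fun r => ∃ w : Fin r → K, (∀ i, ∃ j ∈ U, w i = y j) ∧
    (∀ e : Fin r → ℤ, ∏ i, w i ^ e i ∈ κ → e = 0)
  have hP0 : Pr 0 := ⟨Fin.elim0, fun i => i.elim0, fun e _ => funext fun i => i.elim0⟩
  have hbd : ∀ r, Pr r → r ≤ U.card := by
    rintro r ⟨w, hw1, hw2⟩
    choose j hj hjw using hw1
    have hinj : Function.Injective j := by
      intro a b hab
      by_contra hne
      have h1 := hw2 (Pi.single a 1 - Pi.single b 1) (by
        have h2 : ∏ i, w i ^ (Pi.single a (1 : ℤ) - Pi.single b 1 : Fin r → ℤ) i = 1 := by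
          have hwne : ∀ i, w i ≠ 0 := fun i => by
            rw [hjw]
            exact hU _ (hj i)
          have h3 : ∀ i, w i ^ (Pi.single a (1 : ℤ) - Pi.single b 1 : Fin r → ℤ) i =
              w i ^ (Pi.single a (1 : ℤ) : Fin r → ℤ) i *
              (w i ^ (Pi.single b (1 : ℤ) : Fin r → ℤ) i)⁻¹ := by
            intro i
            rw [Pi.sub_apply, zpow_sub₀ (hwne i), div_eq_mul_inv]
          have h4 : ∀ c : Fin r, ∏ i, w i ^ (Pi.single c (1 : ℤ) : Fin r → ℤ) i = w c := by
            intro c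
            rw [Finset.prod_eq_single c]
            · rw [Pi.single_eq_same, zpow_one]
            · intro i _ hi
              rw [Pi.single_eq_of_ne hi, zpow_zero]
            · intro h
              exact absurd (Finset.mem_univ _) h
          rw [Finset.prod_congr rfl fun i _ => h3 i, Finset.prod_mul_distrib,
            Finset.prod_inv_distrib, h4, h4, hjw a, hjw b, hab]
          exact mul_inv_cancel₀ (hU _ (hj b))
        rw [h2]
        exact one_mem κ)
      have h2 := congrFun h1 a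
      rw [Pi.sub_apply, Pi.single_eq_same, Pi.single_eq_of_ne hne, Pi.zero_apply] at h2
      exact one_ne_zero (h2.symm.trans (by norm_num)).symm
    have h1 := Finset.card_le_card_of_injOn j (s := Finset.univ) (t := U)
      (fun i _ => hj i) (fun a _ b _ h => hinj h)
    simpa using h1
  obtain ⟨r, hr, hmax⟩ : ∃ r, Pr r ∧ ¬ Pr (r + 1) := by
    by_contra hcon
    push Not at hcon
    have h1 : ∀ r, Pr r := fun r => by
      induction r with
      | zero => exact hP0
      | succ r ih => exact hcon r ih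
    have := hbd _ (h1 (U.card + 1))
    omega
  obtain ⟨w, hw1, hw2⟩ := hr
  refine ⟨r, w, hw1, hw2, fun j hj => ?_⟩
  have h1 : ∃ e : Fin (r + 1) → ℤ, ∏ i, (Fin.snoc w (y j) : Fin (r + 1) → K) i ^ e i ∈ κ ∧
      e ≠ 0 := by
    by_contra hcon
    push Not at hcon
    apply hmax
    refine ⟨Fin.snoc w (y j), fun i => ?_, hcon⟩
    refine Fin.lastCases ?_ (fun i => ?_) i
    · exact ⟨j, hj, by rw [Fin.snoc_last]⟩
    · rw [Fin.snoc_castSucc]
      exact hw1 i
  obtain ⟨e, he, hne⟩ := h1
  rw [Fin.prod_univ_castSucc] at he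
  simp only [Fin.snoc_castSucc, Fin.snoc_last] at he
  have hwne : ∀ i, w i ≠ 0 := fun i => by
    obtain ⟨l, hl, h⟩ := hw1 i
    rw [h]
    exact hU _ hl
  have hyj := hU j hj
  have hel : e (Fin.last r) ≠ 0 := by
    intro h0
    rw [h0, zpow_zero, mul_one] at he
    have h2 := hw2 (fun i => e i.castSucc) he
    apply hne
    funext i
    refine Fin.lastCases ?_ (fun i => ?_) i
    · exact h0
    · exact congrFun h2 i
  -- the field generated by the slow functions and the units
  rw [← IntermediateField.isAlgebraic_adjoin_iff]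
  set L := IntermediateField.adjoin k ((κ : Set K) ∪ Set.range w) with hL
  have h2 : y j ^ e (Fin.last r) ∈ L := by
    have h3 : (∏ i : Fin r, w i ^ e i.castSucc) ≠ 0 :=
      Finset.prod_ne_zero_iff.2 fun i _ => zpow_ne_zero _ (hwne i)
    have h4 : y j ^ e (Fin.last r) = ((∏ i : Fin r, w i ^ e i.castSucc) *
        y j ^ e (Fin.last r)) * (∏ i : Fin r, w i ^ e i.castSucc)⁻¹ := by
      field_simp
    rw [h4]
    have h5 : ∀ x ∈ (κ : Set K) ∪ Set.range w, x ∈ L := fun x hx =>
      IntermediateField.subset_adjoin k _ hx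
    exact mul_mem (h5 _ (Or.inl he)) (inv_mem (prod_mem fun i _ =>
      zpow_mem (h5 _ (Or.inr ⟨i, rfl⟩)) _))
  have h3 : y j ^ (e (Fin.last r)).natAbs ∈ L := by
    rcases Int.natAbs_eq (e (Fin.last r)) with h | h
    · rw [h, zpow_natCast] at h2
      exact h2
    · rw [h, zpow_neg, zpow_natCast] at h2
      have h4 := inv_mem h2
      rwa [inv_inv] at h4
  have h4 : IsAlgebraic L (y j ^ (e (Fin.last r)).natAbs) :=
    isAlgebraic_algebraMap (⟨_, h3⟩ : L)
  exact h4.of_pow (Int.natAbs_pos.2 hel)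

end Pool.Agent.N754.GF
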