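import Mathlib
import Pool.Agent.N754.GF.Ev

/-!
All functions on a variety of logarithmic general type, generically finite over a torus, are slow.
-/

set_option autoImplicit false
set_option linter.unusedSectionVars false
set_option linter.overlappingInstances false

open MvPolynomial FF Pool.Agent.W603.LV Filter

namespace Pool.Agent.N754.GF

open Pool.Agent.N754.FV
open Pool.Agent.W602.GT (Divisorial DerReg DerLog LogGeneralType RegAt LogAt IsPluri)
open Pool.Agent.N754.LG (Dual)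

theorem inp {k Ω α : Type} [Field k] [Field Ω] [Algebra k Ω] [CharZero k]
    [IsAlgClosed k] {D : Sy k Ω α} {𝒰 : Ultrafilter α} (hok : Ok D 𝒰) {a r : ℕ}
    (s : Fin a → ∀ t, D.K t) (w : Fin r → ∀ t, D.K t) (hs : ∀ i, SlowE D 𝒰 (s i))
    (hs2 : ∀ F : MvPolynomial (Fin a) k, F ≠ 0 → ∀ᶠ t in (𝒰 : Filter α),
      aeval (fun i => s i t) F ≠ 0) (hw : Un D 𝒰 w) :
    Inp D 𝒰 (fun i : Fin a ⊕ Fin r => ∃ j, i = Sum.inl j)
      (Sum.elim s w : Fin a ⊕ Fin r → ∀ t, D.K t) := by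
  have hWR := Pool.Agent.N754.LG.wr
  have hI := ind hWR hok
  obtain ⟨h1, h2⟩ := Pool.Agent.N608.GF.inp1 k Ω α D 𝒰 hok hI
    (maxs hWR Pool.Agent.N499.GF.smax hok) a r s w hs hs2 hw
  obtain ⟨h3, h4⟩ := Pool.Agent.N323.GF.inp2 Pool.Agent.N284.GF.ext Pool.Agent.N674.GF.alg
    Pool.Agent.N650.GF.der k Ω α D 𝒰 hok hI
    (gcds hWR Pool.Agent.N543.GF.wr2 Pool.Agent.N93.GF.mvg Pool.Agent.N281.GF.gcd hok)
    a r s w hs hs2 hw
  refine ⟨?_, ?_, h1, h2, h3, ?_⟩
  · rintro i ⟨j, rfl⟩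
    exact hs j
  · rintro (i | i) hi
    · exact absurd ⟨i, rfl⟩ hi
    · exact hw.unit i
  · rintro F hF ⟨j, hj, hjF⟩ hne
    rcases j with j | j
    · exact absurd ⟨j, rfl⟩ hj
    · refine h4 F hF ⟨j, hjF⟩ fun i => hne (Sum.inr i) ?_
      rintro ⟨l, hl⟩
      exact absurd hl (by simp)

theorem isAlgebraic_le {k K : Type} [Field k] [Field K] [Algebra k K]
    (κ : IntermediateField k K) (S : Set K) (hS : S ⊆ κ) (x : K)
    (hx : IsAlgebraic (Algebra.adjoin k S) x) : IsAlgebraic κ x := by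
  have h1 : Algebra.adjoin k S ≤ κ.toSubalgebra := Algebra.adjoin_le hS
  exact IsAlgebraic.tower_top_of_subalgebra_le h1 hx

/-- **All functions are slow.** -/
theorem slow_all {k Ω α : Type} [Field k] [Field Ω] [Algebra k Ω] [CharZero k]
    [IsAlgClosed k] {D : Sy k Ω α} {𝒰 : Ultrafilter α} (hok : Ok D 𝒰) {K : Type} [Field K]
    [Algebra k K] (E : Evl D 𝒰 K) {n : ℕ} (y : Fin n → K) (U : Finset (Fin n)) {w : ℕ}
    (hgen : IntermediateField.adjoin k (Set.range y) = ⊤)
    (halg : ∀ x : K, IsAlgebraic (Algebra.adjoin k (y '' (U : Set (Fin n)))) x)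
    (hyS : ∀ i, ∀ᶠ t in (𝒰 : Filter α), ∀ P ∉ D.S t, 0 ≤ P.ord (E.ev (y i) t))
    (hU0 : ∀ i ∈ U, y i ≠ 0)
    (hyU : ∀ i ∈ U, ∀ᶠ t in (𝒰 : Filter α), ∀ P ∉ D.S t, P.ord (E.ev (y i) t) = 0)
    (hyb : ∀ i ∈ U, ∃ C : ℝ, 0 ≤ C ∧ ∀ᶠ t in (𝒰 : Filter α),
      ((hgt k (E.ev (y i) t) : ℤ) : ℝ) ≤ C * D.N t)
    (hL : LogGeneralType k K w fun P => ∃ j, P.ord (y j) < 0) (f : K) :
    SlowE D 𝒰 (E.ev f) := by
  classical
  let κ := k0 E hok
  obtain ⟨r, u, hu1, hu2, hu3⟩ := sel κ y U hU0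
  -- units
  have hUn : Un D 𝒰 (fun i => E.ev (u i)) := by
    refine ⟨fun i => ?_, ?_, fun e he => hu2 e ?_⟩
    · obtain ⟨j, hj, h⟩ := hu1 i
      rw [h]
      filter_upwards [E.ne (y j) (hU0 j hj), hyU j hj] with t h1 h2
      exact ⟨h1, h2⟩
    · have h1 : ∀ i, ∃ C : ℝ, 0 ≤ C ∧ ∀ᶠ t in (𝒰 : Filter α),
          ((hgt k (E.ev (u i) t) : ℤ) : ℝ) ≤ C * D.N t := by
        intro i
        obtain ⟨j, hj, h⟩ := hu1 i
        rw [h]
        exact hyb j hj
      choose C hC0 hC using h1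
      refine ⟨∑ i, C i, Finset.sum_nonneg fun i _ => hC0 i, fun i => ?_⟩
      filter_upwards [hC i, Ok.nn hok] with t h1 h2
      refine h1.trans (mul_le_mul_of_nonneg_right ?_ h2)
      exact Finset.single_le_sum (f := C) (fun i _ => hC0 i) (Finset.mem_univ i)
    · show SlowE D 𝒰 (E.ev (∏ i, u i ^ e i))
      refine he.congr ?_
      have h1 : ∀ᶠ t in (𝒰 : Filter α), ∀ i, E.ev (u i ^ e i) t = E.ev (u i) t ^ e i :=
        eventually_all.2 fun i => ev_zpow E _ _
      filter_upwards [h1, ev_prod E Finset.univ fun i => u i ^ e i] with t h2 h3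
      rw [h3]
      exact Finset.prod_congr rfl fun i _ => (h2 i).symm
  -- a transcendence basis of the field of slow functions
  obtain ⟨I, hI⟩ := (AlgebraicIndependent.matroid k K).exists_isBasis (κ : Set K)
  have hIκ : I ⊆ κ := hI.subset
  have hIi : AlgebraicIndependent k ((↑) : I → K) :=
    AlgebraicIndependent.matroid_indep_iff.1 hI.indep
  have hIalg : ∀ x ∈ κ, IsAlgebraic (Algebra.adjoin k I) x := by
    intro x hx
    rw [AlgebraicIndependent.isAlgebraic_adjoin_iff_of_matroid_isBasis hI]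
    exact isAlgebraic_algebraMap (⟨x, Algebra.subset_adjoin hx⟩ : Algebra.adjoin k (κ : Set K))
  have htr : Algebra.trdeg k K = w := hL.1
  have hIfin : Finite I := by
    rw [← Cardinal.lt_aleph0_iff_finite]
    refine lt_of_le_of_lt hIi.cardinalMk_le_trdeg ?_
    rw [htr]
    exact Cardinal.natCast_lt_aleph0
  obtain ⟨a, ⟨e⟩⟩ := Finite.exists_equiv_fin I
  let s : Fin a → K := fun i => (e.symm i).1
  have hrs : Set.range s = I := by
    ext x
    constructor
    · rintro ⟨i, rfl⟩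
      exact (e.symm i).2
    · intro hx
      exact ⟨e ⟨x, hx⟩, by simp [s]⟩
  have hsi : AlgebraicIndependent k s := hIi.comp e.symm e.symm.injective
  have hsκ : ∀ i, SlowE D 𝒰 (E.ev (s i)) := fun i => hIκ (e.symm i).2
  have hsE : ∀ F : MvPolynomial (Fin a) k, F ≠ 0 → ∀ᶠ t in (𝒰 : Filter α),
      aeval (fun i => E.ev (s i) t) F ≠ 0 := by
    intro F hF
    have h1 : aeval s F ≠ 0 := fun h => hF (hsi (by rw [h, map_zero]))
    filter_upwards [E.ne _ h1, ev_aeval E s F] with t h2 h3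
    rwa [← h3]
  have hInp := inp hok (fun i => E.ev (s i)) (fun i => E.ev (u i)) hsκ hsE hUn
  -- the basis
  let b' : Fin a ⊕ Fin r → K := Sum.elim s u
  have hb'E : ∀ i, E.ev (b' i) = (Sum.elim (fun i => E.ev (s i)) (fun i => E.ev (u i)) :
      Fin a ⊕ Fin r → ∀ t, D.K t) i := by
    rintro (i | i) <;> rfl
  have hb' : AlgebraicIndependent k b' := by
    show Function.Injective (aeval (R := k) b')
    rw [injective_iff_map_eq_zero]
    intro F hF
    by_contra hF0
    have h1 := hInp.ne F hF0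
    obtain ⟨t, g1, g2, g3⟩ := (h1.and ((ev_aeval E b' F).and (ev_zero E))).exists
    apply g1
    rw [hF, g3] at g2
    rw [g2]
    simp only [hb'E]
  have halg' : ∀ x : K, IsAlgebraic (Algebra.adjoin k (Set.range b')) x := by
    have hsub : ∀ (S T : Set K), S ⊆ T → ∀ x : K, IsAlgebraic (Algebra.adjoin k S) x →
        IsAlgebraic (Algebra.adjoin k T) x := fun S T hST x hx =>
      IsAlgebraic.tower_top_of_subalgebra_le (Algebra.adjoin_mono hST) hx
    have h1 : ∀ x ∈ (κ : Set K) ∪ Set.range u, IsAlgebraic (Algebra.adjoin k (Set.range b')) x := by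
      rintro x (hx | ⟨i, rfl⟩)
      · refine hsub I _ ?_ x (hIalg x hx)
        rw [← hrs]
        rintro _ ⟨i, rfl⟩
        exact ⟨Sum.inl i, rfl⟩
      · exact isAlgebraic_algebraMap (⟨u i, Algebra.subset_adjoin ⟨Sum.inr i, rfl⟩⟩ :
          Algebra.adjoin k (Set.range b'))
    have h2 : ∀ j ∈ U, IsAlgebraic (Algebra.adjoin k (Set.range b')) (y j) := fun j hj =>
      IsAlgebraic.adjoin_of_forall_isAlgebraic (fun x hx => h1 x hx.1) (hu3 j hj)
    intro x
    refine IsAlgebraic.adjoin_of_forall_isAlgebraic (fun x hx => ?_) (halg x)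
    obtain ⟨j, hj, rfl⟩ := hx.1
    exact h2 j hj
  have hw : w = a + r := by
    have h0 : Algebra.IsAlgebraic (Algebra.adjoin k (Set.range b')) K := ⟨halg'⟩
    have h1 : IsTranscendenceBasis k b' := hb'.isTranscendenceBasis_iff_isAlgebraic.2 h0
    have h2 := h1.cardinalMk_eq_trdeg
    rw [htr] at h2
    simp only [Cardinal.mk_sum, Cardinal.mk_fin, Cardinal.lift_natCast] at h2
    exact_mod_cast h2.symm
  subst hw
  let e2 : Fin a ⊕ Fin r ≃ Fin (a + r) := finSumFinEquiv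
  let b : Fin (a + r) → K := fun i => b' (e2.symm i)
  have hb : AlgebraicIndependent k b := hb'.comp e2.symm e2.symm.injective
  have hInp2 := Pool.Agent.N216.GF.eqv k Ω α D 𝒰 _ _ e2 _ _ hInp
  have hInp3 : Inp D 𝒰 (fun i : Fin (a + r) => ∃ j, e2.symm i = Sum.inl j)
      (fun i => E.ev (b i)) := by
    have h1 : (fun i => E.ev (b i)) = fun (i : Fin (a + r)) t =>
        (Sum.elim (fun i => E.ev (s i)) (fun i => E.ev (u i)) :
          Fin a ⊕ Fin r → ∀ t, D.K t) (e2.symm i) t := by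
      funext i
      exact hb'E (e2.symm i)
    rw [h1]
    exact hInp2
  obtain ⟨Dv, hDv⟩ := Pool.Agent.N603.LG.du k K (a + r) b htr hb
  obtain ⟨-, N, hN, ω, hω1, hω2, hω3, D', hω0, hωi⟩ := hL
  let T : Finset K := Finset.univ.image y
  have hT : IntermediateField.adjoin k (T : Set K) = ⊤ := by
    rw [← hgen]
    congr 1
    simp [T]
  have hS : SlowS D 𝒰 D.S := hok.card
  have hslow : ∀ j, ω j Dv ∈ κ := by
    intro j
    have h2A := Pool.Agent.N278.GF.two_a Pool.Agent.N901.GF.PLC.plc Pool.Agent.N186.GF.uf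
      k Ω α D 𝒰 K E (a + r) _ b n y (ω j Dv) (Ok.nn hok) hS htr hb hInp3 hyS
      (fun P hP1 hP2 hP3 => by
        obtain ⟨h1, h2⟩ := Pool.Agent.N691.GF.regd Pool.Agent.N803.GF.dbd k K T hT (a + r) htr b
          Dv hb hDv P hP1 hP3
        have h3 := hω3 P h1 (fun ⟨i, hi⟩ => absurd (hP2 i) (not_le.2 hi)) j Dv h2
        rcases h3 with h3 | h3
        · rw [h3, P.ord_zero]
        · exact h3)
    exact Pool.Agent.N946.GF.two_b Pool.Agent.N592.GF.tor k Ω α D 𝒰 K E T (a + r) _ b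
      (ω j Dv) (Ok.nn hok) hS hT htr hb hInp3 h2A fun P hP => by
        obtain ⟨h1, h2⟩ := Pool.Agent.N263.GF.logd Pool.Agent.N803.GF.dbd k K T hT (a + r) htr b
          Dv hb hDv P hP
        exact hω2 P h1 j Dv h2
  -- the ratios
  let A : Matrix (Fin (a + r)) (Fin (a + r)) K := Matrix.of fun i j => D' i (b j) / b j
  have hD' : D' = fun i => ∑ j, A i j • Dv j := by
    funext i
    ext x
    have h1 : ∀ (t : Finset (Fin (a + r))), (∑ j ∈ t, A i j • Dv j) x =
        ∑ j ∈ t, A i j * Dv j x := by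
      intro t
      induction t using Finset.induction_on with
      | empty => simp
      | insert j t hj ih =>
        rw [Finset.sum_insert hj, Finset.sum_insert hj, Derivation.add_apply, ih]
        rfl
    rw [h1, hDv.2 (D' i) x]
    rfl
  have hval : ∀ j, ω j D' = A.det ^ N * ω j Dv := by
    intro j
    have h1 := hω1 j A Dv
    rw [← hD'] at h1
    exact h1
  have hdet : A.det ^ N ≠ 0 := by
    intro h0
    apply hω0
    rw [hval, h0, zero_mul]
  have hrat : ∀ i : Fin (a + r), ω i.succ D' / ω 0 D' ∈ κ := by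
    intro i
    rw [hval, hval, mul_div_mul_left _ _ hdet]
    exact κ.div_mem (hslow _) (hslow _)
  have hbas : IsTranscendenceBasis k (fun i : Fin (a + r) => ω i.succ D' / ω 0 D') :=
    hωi.isTranscendenceBasis_of_trdeg_le_of_finite (by
      rw [htr, Cardinal.mk_fin])
  have h1 := hbas.isAlgebraic
  have h2 : IsAlgebraic κ f := by
    refine isAlgebraic_le κ _ ?_ f (h1.1 f)
    rintro _ ⟨i, rfl⟩
    exact hrat i
  exact k0_closed E hok f h2

end Pool.Agent.N754.GF
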