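import Mathlib
import Pool.Agent.N754.GF.Main

/-!
The degree bound for varieties of logarithmic general type which are generically finite over a torus.
-/

set_option autoImplicit false
set_option linter.unusedSectionVars false
set_option linter.overlappingInstances false

open MvPolynomial FF Pool.Agent.W603.LV Filter

namespace Pool.Agent.N754.GF

open Pool.Agent.N754.FV
open Pool.Agent.W602.GT (Divisorial DerReg DerLog LogGeneralType RegAt LogAt IsPluri)

/-- evaluation along a generic sequence of points -/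
theorem exists_evl {k Ω α : Type} [Field k] [Field Ω] [Algebra k Ω] [CharZero k]
    [IsAlgClosed k] {D : Sy k Ω α} {𝒰 : Ultrafilter α} {n : ℕ}
    {p : Ideal (MvPolynomial (Fin n) k)} {K : Type} [Field K] [Algebra k K] (y : Fin n → K)
    (hy : ∀ Q, aeval y Q = 0 ↔ Q ∈ p) (hgen : IntermediateField.adjoin k (Set.range y) = ⊤)
    (x : ∀ t, Fin n → D.K t) (hx : ∀ t, ∀ Q ∈ p, aeval (x t) Q = 0)
    (hx2 : ∀ Q, Q ∉ p → ∀ᶠ t in (𝒰 : Filter α), aeval (x t) Q ≠ 0) :
    ∃ E : Evl D 𝒰 K, ∀ i, ∀ᶠ t in (𝒰 : Filter α), E.ev (y i) t = x t i := by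
  classical
  have hprime : p.IsPrime := by
    have h1 : p = RingHom.ker (aeval (R := k) y) := by
      ext Q
      rw [RingHom.mem_ker, hy]
    rw [h1]
    exact RingHom.ker_isPrime _
  have h1p : (1 : MvPolynomial (Fin n) k) ∉ p := p.ne_top_iff_one.1 hprime.ne_top
  have hfr : ∀ f : K, ∃ A B : MvPolynomial (Fin n) k, B ∉ p ∧ f = aeval y A / aeval y B := by
    intro f
    have hf : f ∈ IntermediateField.adjoin k (Set.range y) := by
      rw [hgen]
      trivial
    rw [IntermediateField.mem_adjoin_range_iff] at hf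
    obtain ⟨A, B, h⟩ := hf
    by_cases h0 : aeval y B = 0
    · refine ⟨0, 1, h1p, ?_⟩
      rw [h, h0, div_zero, map_zero, zero_div]
    · exact ⟨A, B, fun hB => h0 ((hy B).2 hB), h⟩
  choose A B hB hAB using hfr
  let ev : K → ∀ t, D.K t := fun f t => aeval (x t) (A f) / aeval (x t) (B f)
  have hev : ∀ A' B' : MvPolynomial (Fin n) k, B' ∉ p → ∀ᶠ t in (𝒰 : Filter α),
      ev (aeval y A' / aeval y B') t = aeval (x t) A' / aeval (x t) B' := by
    intro A' B' hB'
    set f := aeval y A' / aeval y B' with hf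
    have h1 : A f * B' - A' * B f ∈ p := by
      rw [← hy, map_sub, map_mul, map_mul, sub_eq_zero]
      have h2 : aeval y (A f) / aeval y (B f) = aeval y A' / aeval y B' := (hAB f).symm
      rwa [div_eq_div_iff (fun h => hB f ((hy _).1 h)) (fun h => hB' ((hy _).1 h))] at h2
    filter_upwards [hx2 _ (hB f), hx2 _ hB'] with t g1 g2
    have h2 := hx t _ h1
    rw [map_sub, map_mul, map_mul, sub_eq_zero] at h2
    show aeval (x t) (A f) / aeval (x t) (B f) = _
    rw [div_eq_div_iff g1 g2, h2]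
  have hmulp : ∀ {B B' : MvPolynomial (Fin n) k}, B ∉ p → B' ∉ p → B * B' ∉ p := by
    intro B B' h h' h2
    rcases hprime.mem_or_mem h2 with h3 | h3
    · exact h h3
    · exact h' h3
  refine ⟨⟨ev, fun f g => ?_, fun f g => ?_, fun c => ?_, fun f hf => ?_⟩, fun i => ?_⟩
  · have h0 : f + g = aeval y (A f * B g + A g * B f) / aeval y (B f * B g) := by
      conv_lhs => rw [hAB f, hAB g]
      have g1 : aeval y (B f) ≠ 0 := fun h => hB f ((hy _).1 h)
      have g2 : aeval y (B g) ≠ 0 := fun h => hB g ((hy _).1 h)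
      rw [map_add, map_mul, map_mul, map_mul]
      field_simp
    filter_upwards [hev (A f * B g + A g * B f) (B f * B g) (hmulp (hB f) (hB g)),
      hx2 _ (hB f), hx2 _ (hB g)] with t g1 g2 g3
    rw [h0, g1]
    show _ = aeval (x t) (A f) / aeval (x t) (B f) + aeval (x t) (A g) / aeval (x t) (B g)
    rw [map_add, map_mul, map_mul, map_mul]
    field_simp
  · have h0 : f * g = aeval y (A f * A g) / aeval y (B f * B g) := by
      conv_lhs => rw [hAB f, hAB g]
      rw [map_mul, map_mul, div_mul_div_comm]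
    filter_upwards [hev (A f * A g) (B f * B g) (hmulp (hB f) (hB g))] with t g1
    rw [h0, g1]
    show _ = aeval (x t) (A f) / aeval (x t) (B f) * (aeval (x t) (A g) / aeval (x t) (B g))
    rw [map_mul, map_mul, div_mul_div_comm]
  · filter_upwards [hev (C c) 1 h1p] with t g1
    rw [aeval_C, map_one, div_one, aeval_C, map_one, div_one] at g1
    exact g1
  · have h1 : A f ∉ p := by
      intro h
      apply hf
      rw [hAB f, (hy _).2 h, zero_div]
    filter_upwards [hx2 _ h1, hx2 _ (hB f)] with t g1 g2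
    exact div_ne_zero g1 g2
  · filter_upwards [hev (X i) 1 h1p] with t g1
    rw [aeval_X, map_one, div_one, aeval_X, map_one, div_one] at g1
    exact g1

theorem hgt_le_sz {k L : Type} [Field k] [IsAlgClosed k] [CharZero k] [Field L] [Algebra k L]
    [IsFF k L] {n : ℕ} (S : Finset (Place k L)) (x : Fin n → L)
    (hx : ∀ i, ∀ P ∉ S, 0 ≤ P.ord (x i)) (i : Fin n) :
    ((hgt k (x i) : ℤ) : ℝ) ≤ sz S x := by
  have h1 : hgt k (x i) = ∑ P ∈ S, max (-P.ord (x i)) 0 := by
    unfold hgt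
    rw [finsum_eq_sum_of_support_subset (s := S)]
    intro P hP
    by_contra hPS
    apply hP
    show max (-P.ord (x i)) 0 = 0
    have := hx i P hPS
    exact max_eq_right (by omega)
  rw [h1]
  push_cast
  unfold sz
  refine Finset.sum_le_sum fun P _ => ?_
  exact Finset.single_le_sum (f := fun i => max (-(P.ord (x i) : ℝ)) 0)
    (fun _ _ => le_max_right _ _) (Finset.mem_univ i)

theorem sz_le {k L : Type} [Field k] [IsAlgClosed k] [CharZero k] [Field L] [Algebra k L]
    [IsFF k L] {n : ℕ} (S : Finset (Place k L)) (x : Fin n → L) :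
    sz S x ≤ ∑ i, ((hgt k (x i) : ℤ) : ℝ) := by
  have hcL : CharZero L := charZero_of_injective_algebraMap (algebraMap k L).injective
  unfold sz
  rw [Finset.sum_comm]
  exact Finset.sum_le_sum fun i _ => part_le_hgt S (x i)

/-- **The degree bound.** -/
theorem bound {k : Type} [Field k] [IsAlgClosed k] [CharZero k] {n : ℕ}
    {p : Ideal (MvPolynomial (Fin n) k)} (U : Finset (Fin n))
    (hU : ∀ i ∈ U, ∃ B, B * X i - 1 ∈ p) {K : Type} [Field K] [Algebra k K] (y : Fin n → K)
    (hy : ∀ Q, aeval y Q = 0 ↔ Q ∈ p) (hgen : IntermediateField.adjoin k (Set.range y) = ⊤)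
    (halg : ∀ x : K, IsAlgebraic (Algebra.adjoin k (y '' (U : Set (Fin n)))) x) {w : ℕ}
    (hL : LogGeneralType k K w fun P => ∃ j, P.ord (y j) < 0) :
    ∃ H', H' ∉ p ∧ ∃ A : ℕ, ∀ (L : Type) [Field L] [Algebra k L] [IsFF k L]
      (S : Finset (Place k L)) (x : Fin n → L), (∀ i, ∀ P ∉ S, 0 ≤ P.ord (x i)) →
      (∀ Q ∈ p, aeval x Q = 0) → aeval x H' ≠ 0 → mapDeg k x < (A : ℤ) * max (euler S) 1 := by
  classical
  by_contra hcon
  push Not at hcon
  have hprime : p.IsPrime := by
    have h1 : p = RingHom.ker (aeval (R := k) y) := by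
      ext Q
      rw [RingHom.mem_ker, hy]
    rw [h1]
    exact RingHom.ker_isPrime _
  obtain ⟨𝒰, h𝒰1, h𝒰2⟩ := exists_uf p
  let α := {G : MvPolynomial (Fin n) k // G ∉ p} × ℕ
  have hno' := fun t : α => hcon t.1.1 t.1.2 t.2
  choose L i1 i2 i3 S x hx1 hx2 hx3 hx4 using hno'
  let Ω := AlgebraicClosure (RatFunc k)
  have hΩ : ∃ z : Ω, Transcendental k z := by
    refine ⟨algebraMap (RatFunc k) Ω RatFunc.X, ?_⟩
    rw [transcendental_algebraMap_iff (algebraMap (RatFunc k) Ω).injective]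
    exact RatFunc.transcendental_X
  have hEMB := Pool.Agent.N754.LG.emb
  have hCK : ∀ t, CharZero (L t) := fun t =>
    charZero_of_injective_algebraMap (algebraMap k (L t)).injective
  have hσ : ∀ t, Nonempty (L t →ₐ[k] Ω) := fun t => (hEMB k (L t)).2 Ω hΩ
  let σ : ∀ t, L t →ₐ[k] Ω := fun t => (hσ t).some
  have hcan : ∀ t, (-2 : ℤ) ≤ canDeg k (L t) := fun t => (hEMB k (L t)).1
  have hsz : ∀ t, ((mapDeg k (x t) : ℤ) : ℝ) ≤ sz (S t) (x t) := fun t =>
    mapDeg_le_sz (S t) (x t) (hx1 t)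
  have hbig : ∀ C : ℝ, ∀ᶠ t in (𝒰 : Filter α), C * ((max (euler (S t)) 1 : ℤ) : ℝ) ≤
      sz (S t) (x t) := by
    intro C
    obtain ⟨C', hC'⟩ := exists_nat_ge C
    filter_upwards [h𝒰2 C'] with t ht
    have h1 : (((t.2 : ℤ) * max (euler (S t)) 1 : ℤ) : ℝ) ≤
        ((mapDeg k (x t) : ℤ) : ℝ) := by exact_mod_cast hx4 t
    refine le_trans ?_ (h1.trans (hsz t))
    have h2 : (1 : ℝ) ≤ ((max (euler (S t)) 1 : ℤ) : ℝ) := by exact_mod_cast le_max_right _ _
    have h3 : (C' : ℝ) ≤ (t.2 : ℝ) := by exact_mod_cast ht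
    rw [Int.cast_mul, Int.cast_natCast]
    exact mul_le_mul_of_nonneg_right (hC'.trans h3) (by linarith)
  have hsmall : ∀ (f : α → ℝ) (c : ℝ), (∀ t, f t ≤ c * ((max (euler (S t)) 1 : ℤ) : ℝ)) →
      0 ≤ c → ∀ ε : ℝ, 0 < ε → ∀ᶠ t in (𝒰 : Filter α), f t ≤ ε * sz (S t) (x t) := by
    intro f c hf hc ε hε
    filter_upwards [hbig (c / ε)] with t ht
    refine (hf t).trans ?_
    have h1 := mul_le_mul_of_nonneg_left ht hε.le
    calc c * ((max (euler (S t)) 1 : ℤ) : ℝ) = ε * (c / ε * ((max (euler (S t)) 1 : ℤ) : ℝ)) := by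
          field_simp
      _ ≤ _ := h1
  let D : Sy k Ω α :=
    { K := L
      σ := σ
      S := S
      o := fun t P => ∑ i, max (-(P.ord (x t i) : ℝ)) 0
      N := fun t => sz (S t) (x t)
      o_nonneg := fun t P => Finset.sum_nonneg fun i _ => le_max_right _ _ }
  have hN : ∀ C : ℝ, ∀ᶠ t in (𝒰 : Filter α), C ≤ sz (S t) (x t) := fun C => by
    filter_upwards [hbig (max C 0)] with t ht
    have ht' : max C 0 * ((max (euler (S t)) 1 : ℤ) : ℝ) ≤ sz (S t) (x t) := ht
    refine le_trans ?_ ht'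
    have h2 : (1 : ℝ) ≤ ((max (euler (S t)) 1 : ℤ) : ℝ) := by exact_mod_cast le_max_right _ _
    calc C ≤ max C 0 := le_max_left _ _
      _ = max C 0 * 1 := (mul_one _).symm
      _ ≤ _ := mul_le_mul_of_nonneg_left h2 (le_max_right _ _)
  have hok : Ok D 𝒰 :=
    { osum := ⟨1, zero_le_one, Eventually.of_forall fun t => by
        rw [one_mul]
        exact le_refl _⟩
      top := hN
      card := hsmall (fun t => ((S t).card : ℝ)) 3 (fun t => by
        have h1 : ((S t).card : ℤ) ≤ 3 * max (euler (S t)) 1 := by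
          have h2 := hcan t
          have h3 : euler (S t) = canDeg k (L t) + (S t).card := rfl
          have h4 := le_max_left (euler (S t)) 1
          have h5 := le_max_right (euler (S t)) 1
          omega
        exact_mod_cast h1) (by norm_num)
      eul := hsmall (fun t => ((euler (S t) : ℤ) : ℝ)) 1 (fun t => by
        rw [one_mul]
        exact_mod_cast le_max_left _ _) zero_le_one }
  have hxg : ∀ Q, Q ∉ p → ∀ᶠ t in (𝒰 : Filter α), aeval (x t) Q ≠ 0 := by
    intro Q hQ
    filter_upwards [h𝒰1 Q hQ] with t ht h0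
    obtain ⟨R, hR⟩ := ht
    apply hx3 t
    rw [hR, map_mul, h0, zero_mul]
  obtain ⟨E, hE⟩ := exists_evl (D := D) (𝒰 := 𝒰) y hy hgen x (fun t Q hQ => hx2 t Q hQ) hxg
  have hslow := slow_all hok E y U hgen halg
    (fun i => by
      filter_upwards [hE i] with t ht P hP
      rw [ht]
      exact hx1 t i P hP)
    (fun i hi h0 => by
      obtain ⟨B, hB⟩ := hU i hi
      have h1 := (hy _).2 hB
      rw [map_sub, map_mul, aeval_X, map_one, h0, mul_zero, zero_sub, neg_eq_zero] at h1
      exact one_ne_zero h1)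
    (fun i hi => by
      obtain ⟨B, hB⟩ := hU i hi
      filter_upwards [hE i] with t ht P hP
      rw [ht]
      exact (Pool.Agent.N754.LG.unit_ord (P := P) (x t) (fun j => hx1 t j P hP) i B
        (hx2 t _ hB)).2)
    (fun i _ => ⟨1, zero_le_one, by
      filter_upwards [hE i] with t ht
      rw [ht, one_mul]
      exact hgt_le_sz (S t) (x t) (hx1 t) i⟩) hL
  have h1 : Slow D 𝒰 fun t => ∑ i : Fin n, ((hgt k (x t i) : ℤ) : ℝ) :=
    Slow.sum _ _ (fun i _ => (hslow (y i)).congr (hE i)) (Ok.nn hok)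
  obtain ⟨t, g1, g2⟩ := ((h1 (1 / 2) (by norm_num)).and (hN 1)).exists
  have g3 := sz_le (S t) (x t)
  have g4 : ∑ i : Fin n, ((hgt k (x t i) : ℤ) : ℝ) ≤ 1 / 2 * sz (S t) (x t) := g1
  linarith

end Pool.Agent.N754.GF
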