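import Mathlib
import Pool.Agent.N754.GF.Bd

/-!
The degree bound for varieties of logarithmic general type with a dominant morphism to a torus of
the same dimension.
-/

set_option autoImplicit false
set_option linter.unusedSectionVars false
set_option linter.overlappingInstances false

open MvPolynomial FF Pool.Agent.W603.LV Filter

namespace Pool.Agent.N754.GF

open Pool.Agent.N754.FV
open Pool.Agent.W602.GT (Divisorial DerReg DerLog LogGeneralType RegAt LogAt IsPluri)

theorem mapDeg_mono {k L : Type} [Field k] [IsAlgClosed k] [CharZero k] [Field L] [Algebra k L]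
    [IsFF k L] {n m : ℕ} (f : Fin n → L) (f' : Fin m → L) (ι : Fin n → Fin m)
    (h : ∀ j, f j = f' (ι j)) : mapDeg k f ≤ mapDeg k f' := by
  classical
  have hcL : CharZero L := charZero_of_injective_algebraMap (algebraMap k L).injective
  obtain ⟨T, hT⟩ := exists_supp (k := k) (Finset.univ : Finset (Fin m)) f'
  have hT' : ∀ j, ∀ P : Place k L, P.ord (f j) ≠ 0 → P ∈ T := fun j P hP =>
    hT (ι j) (Finset.mem_univ _) P (by rwa [← h])
  have key : ∀ {l : ℕ} (g : Fin l → L), (∀ j, ∀ P : Place k L, P.ord (g j) ≠ 0 → P ∈ T) →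
      mapDeg k g = ∑ P ∈ T, ((Finset.univ.sup fun j => (-P.ord (g j)).toNat : ℕ) : ℤ) := by
    intro l g hg
    unfold mapDeg
    rw [finsum_eq_sum_of_support_subset (s := T)]
    intro P hP
    by_contra hPT
    apply hP
    have h1 : (Finset.univ.sup fun j => (-P.ord (g j)).toNat) = 0 := by
      rw [← Nat.bot_eq_zero, Finset.sup_eq_bot_iff]
      intro j _
      have h2 : P.ord (g j) = 0 := by
        by_contra h3
        exact hPT (hg j P h3)
      rw [h2]
      rfl
    show ((Finset.univ.sup fun j => (-P.ord (g j)).toNat : ℕ) : ℤ) = 0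
    rw [h1]
    rfl
  rw [key f hT', key f' fun j => hT j (Finset.mem_univ _)]
  refine Finset.sum_le_sum fun P _ => ?_
  have h1 : (Finset.univ.sup fun j => (-P.ord (f j)).toNat) ≤
      Finset.univ.sup fun j => (-P.ord (f' j)).toNat := by
    refine Finset.sup_le fun j _ => ?_
    rw [h j]
    exact Finset.le_sup (f := fun j => (-P.ord (f' j)).toNat) (Finset.mem_univ (ι j))
  exact_mod_cast h1

/-- **The degree bound**, for varieties with a dominant morphism to a torus of the same
dimension. -/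
theorem bound' {k : Type} [Field k] [IsAlgClosed k] [CharZero k] {n : ℕ}
    {p : Ideal (MvPolynomial (Fin n) k)} {K : Type} [Field K] [Algebra k K] (y : Fin n → K)
    (hy : ∀ Q, aeval y Q = 0 ↔ Q ∈ p) (hgen : IntermediateField.adjoin k (Set.range y) = ⊤)
    {w : ℕ} (hL : LogGeneralType k K w fun P => ∃ j, P.ord (y j) < 0) {m : ℕ}
    (g : Fin m → MvPolynomial (Fin n) k) (hg : ∀ i, ∃ B, B * g i - 1 ∈ p)
    (halg : ∀ x : K, IsAlgebraic (Algebra.adjoin k (Set.range fun i => aeval y (g i))) x) :
    ∃ H', H' ∉ p ∧ ∃ A : ℕ, ∀ (L : Type) [Field L] [Algebra k L] [IsFF k L]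
      (S : Finset (Place k L)) (x : Fin n → L), (∀ i, ∀ P ∉ S, 0 ≤ P.ord (x i)) →
      (∀ Q ∈ p, aeval x Q = 0) → aeval x H' ≠ 0 → mapDeg k x < (A : ℤ) * max (euler S) 1 := by
  classical
  let G : Fin (n + m) → MvPolynomial (Fin n) k := Fin.append X g
  let y' : Fin (n + m) → K := fun i => aeval y (G i)
  let p' : Ideal (MvPolynomial (Fin (n + m)) k) := RingHom.ker (aeval (R := k) y')
  have hy' : ∀ Q, aeval y' Q = 0 ↔ Q ∈ p' := fun Q => Iff.rfl
  have hyl : ∀ i : Fin n, y' (Fin.castAdd m i) = y i := fun i => by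
    simp only [y', G, Fin.append_left, aeval_X]
  have hyr : ∀ i : Fin m, y' (Fin.natAdd n i) = aeval y (g i) := fun i => by
    simp only [y', G, Fin.append_right]
  have hgen' : IntermediateField.adjoin k (Set.range y') = ⊤ := by
    rw [eq_top_iff, ← hgen, IntermediateField.adjoin_le_iff]
    rintro _ ⟨i, rfl⟩
    refine IntermediateField.subset_adjoin _ _ ⟨Fin.castAdd m i, hyl i⟩
  let U : Finset (Fin (n + m)) := Finset.univ.image (Fin.natAdd n)
  have hU : ∀ i ∈ U, ∃ B, B * X i - 1 ∈ p' := by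
    intro i hi
    obtain ⟨l, -, rfl⟩ := Finset.mem_image.1 hi
    obtain ⟨B, hB⟩ := hg l
    refine ⟨rename (Fin.castAdd m) B, ?_⟩
    rw [← hy', map_sub, map_mul, aeval_X, map_one, hyr, aeval_rename]
    have h1 : y' ∘ Fin.castAdd m = y := funext hyl
    rw [h1]
    have h2 := (hy _).2 hB
    rwa [map_sub, map_mul, map_one] at h2
  have himg : y' '' (U : Set (Fin (n + m))) = Set.range fun i => aeval y (g i) := by
    ext z
    constructor
    · rintro ⟨i, hi, rfl⟩
      obtain ⟨l, -, rfl⟩ := Finset.mem_image.1 hi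
      exact ⟨l, (hyr l).symm⟩
    · rintro ⟨l, rfl⟩
      exact ⟨Fin.natAdd n l, Finset.mem_coe.2 (Finset.mem_image_of_mem _ (Finset.mem_univ l)),
        hyr l⟩
  have hBd : (fun P : Place k K => ∃ j, P.ord (y' j) < 0) = fun P => ∃ j, P.ord (y j) < 0 := by
    funext P
    apply propext
    constructor
    · intro h
      by_contra hcon
      push Not at hcon
      obtain ⟨j, hj⟩ := h
      rcases Pool.Agent.N754.LG.reg_aeval0 P (fun i => Or.inr (hcon i)) (G j) with h1 | h1
      · have h2 : y' j = 0 := h1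
        rw [h2, P.ord_zero] at hj
        omega
      · exact absurd hj (not_lt.2 h1)
    · rintro ⟨j, hj⟩
      exact ⟨Fin.castAdd m j, by rwa [hyl]⟩
  obtain ⟨H, hH, A, hA⟩ := bound U hU y' hy' hgen' (by rw [himg]; exact halg) (w := w) (by
    rw [hBd]; exact hL)
  have hcomp : ∀ (L : Type) [Field L] [Algebra k L] (x : Fin n → L)
      (Q : MvPolynomial (Fin (n + m)) k), aeval (fun i => aeval x (G i)) Q =
      aeval x (bind₁ G Q) := by
    intro L _ _ x Q
    rw [aeval_bind₁]
  refine ⟨bind₁ G H, fun h => hH ?_, A, fun L _ _ _ S x hx hxp hxH => ?_⟩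
  · rw [← hy']
    show aeval (fun i => aeval y (G i)) H = 0
    rw [hcomp, (hy _).2 h]
  · have hx' : ∀ i, ∀ P ∉ S, 0 ≤ P.ord (aeval x (G i)) := by
      intro i P hP
      rcases Pool.Agent.N754.LG.reg_aeval0 P (fun j => Or.inr (hx j P hP)) (G i) with h1 | h1
      · rw [h1, P.ord_zero]
      · exact h1
    have h1 := hA L S (fun i => aeval x (G i)) hx' (fun Q hQ => by
      rw [hcomp]
      apply hxp
      rw [← hy, ← hcomp]
      exact hQ) (by rwa [hcomp])
    refine lt_of_le_of_lt (mapDeg_mono x _ (Fin.castAdd m) fun j => ?_) h1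
    simp only [G, Fin.append_left, aeval_X]

end Pool.Agent.N754.GF
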