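import Mathlib
import Pool.Agent.N754.GF.Emb

/-!
The degree bound for varieties of logarithmic general type with a dominant morphism to a torus of
the same dimension, in terms of points.
-/

set_option autoImplicit false
set_option linter.unusedSectionVars false
set_option linter.overlappingInstances false

open MvPolynomial FF Pool.Agent.W603.LV Filter

namespace Pool.Agent.N754.GF

open Pool.Agent.N754.FV
open Pool.Agent.W602.GT (Divisorial DerReg DerLog LogGeneralType RegAt LogAt IsPluri)

/-- a certificate for a polynomial without zeros on a closed set -/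
theorem unit_certG {k : Type} [Field k] [IsAlgClosed k] {n : ℕ}
    (p : Ideal (MvPolynomial (Fin n) k)) (G : MvPolynomial (Fin n) k)
    (h : ∀ z : Fin n → k, (∀ Q ∈ p, eval z Q = 0) → eval z G ≠ 0) :
    ∃ B : MvPolynomial (Fin n) k, B * G - 1 ∈ p := by
  classical
  by_contra hcon
  push Not at hcon
  let I : Ideal (MvPolynomial (Fin n) k) := p ⊔ Ideal.span {G}
  have hI : I ≠ ⊤ := by
    intro hI
    have h1 : (1 : MvPolynomial (Fin n) k) ∈ I := by rw [hI]; trivial
    obtain ⟨y, hy, z, hz, hyz⟩ := Submodule.mem_sup.1 h1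
    obtain ⟨B, hB⟩ := Ideal.mem_span_singleton'.1 hz
    apply hcon B
    have h2 : B * G - 1 = -y := by
      rw [hB, ← hyz]
      ring
    rw [h2]
    exact neg_mem hy
  obtain ⟨m, hm, hIm⟩ := Ideal.exists_le_maximal I hI
  let κ : Type := MvPolynomial (Fin n) k ⧸ m
  let : Field κ := Ideal.Quotient.field m
  have hfin : Module.Finite k κ := finite_of_finite_type_of_isJacobsonRing k κ
  let τ : κ →ₐ[k] k := IsAlgClosed.lift
  let z : Fin n → k := fun j => τ (Ideal.Quotient.mk m (X j))
  have hz : ∀ P : MvPolynomial (Fin n) k, eval z P = τ (Ideal.Quotient.mk m P) := by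
    intro P
    have h1 : (aeval z : MvPolynomial (Fin n) k →ₐ[k] k) =
        τ.comp (Ideal.Quotient.mkₐ k m) := by
      apply MvPolynomial.algHom_ext
      intro j
      rw [aeval_X]
      rfl
    rw [← Pool.Agent.N754.LT.ae_eval, h1]
    rfl
  refine h z (fun Q hQ => ?_) ?_
  · rw [hz, Ideal.Quotient.eq_zero_iff_mem.2 (hIm (Ideal.mem_sup_left hQ)), map_zero]
  · rw [hz, Ideal.Quotient.eq_zero_iff_mem.2
      (hIm (Ideal.mem_sup_right (Ideal.mem_span_singleton_self _))), map_zero]

/-- **The degree bound** for a variety of logarithmic general type and dimension `w` with a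
dominant morphism to the torus of dimension `w`. -/
theorem bound_dom {k : Type} [Field k] [IsAlgClosed k] [CharZero k] {n : ℕ}
    {p : Ideal (MvPolynomial (Fin n) k)} {K : Type} [Field K] [Algebra k K] (y : Fin n → K)
    (hy : ∀ Q, aeval y Q = 0 ↔ Q ∈ p) (hgen : IntermediateField.adjoin k (Set.range y) = ⊤)
    {w : ℕ} (hL : LogGeneralType k K w fun P => ∃ j, P.ord (y j) < 0)
    (g : Fin w → MvPolynomial (Fin n) k)
    (hg : ∀ z : Fin n → k, (∀ Q ∈ p, eval z Q = 0) → ∀ i, eval z (g i) ≠ 0)
    (hind : ∀ Q : MvPolynomial (Fin w) k, bind₁ g Q ∈ p → Q = 0) :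
    ∃ H', H' ∉ p ∧ ∃ A : ℕ, ∀ (L : Type) [Field L] [Algebra k L] [IsFF k L]
      (S : Finset (Place k L)) (x : Fin n → L), (∀ i, ∀ P ∉ S, 0 ≤ P.ord (x i)) →
      (∀ Q ∈ p, aeval x Q = 0) → aeval x H' ≠ 0 → mapDeg k x < (A : ℤ) * max (euler S) 1 := by
  have h1 : AlgebraicIndependent k fun i => aeval y (g i) := by
    rw [algebraicIndependent_iff]
    intro Q hQ
    apply hind
    rw [← hy, aeval_bind₁]
    exact hQ
  have h2 : Algebra.trdeg k K ≤ Cardinal.mk (Fin w) := by
    rw [Cardinal.mk_fin, hL.1]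
  have h3 := h1.isTranscendenceBasis_of_trdeg_le_of_finite h2
  have h4 := h3.isAlgebraic
  exact bound' y hy hgen hL g (fun i => unit_certG p (g i) fun z hz => hg z hz i)
    fun x => h4.isAlgebraic x

end Pool.Agent.N754.GF
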